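import Pool.Agent.K3h44.FQ.Luc

/-!
# Conjugation in quadratic fields, and the Eisenstein integers
-/

set_option autoImplicit false
set_option linter.unusedSectionVars false

namespace Pool.Agent.K3h44.FQ

open NumberField

/-- the conjugation of a quadratic field -/
theorem exists_conj (F : Type) [Field F] [NumberField F] (hF : Module.finrank ℚ F = 2) :
    ∃ σ : F →+* F, (∀ x, σ (σ x) = x) ∧ ∀ x, σ x = x → ∃ q : ℚ, x = q := by
  classical
  have : Algebra.IsQuadraticExtension ℚ F := ⟨hF⟩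
  have hG : IsGalois ℚ F := inferInstance
  have hcard : Nat.card (F ≃ₐ[ℚ] F) = 2 := by
    rw [IsGalois.card_aut_eq_finrank, hF]
  have hnt : Nontrivial (F ≃ₐ[ℚ] F) := by
    rw [← Finite.one_lt_card_iff_nontrivial, hcard]
    norm_num
  obtain ⟨σ, hσ⟩ := exists_ne (1 : F ≃ₐ[ℚ] F)
  have hall : ∀ τ : F ≃ₐ[ℚ] F, τ = 1 ∨ τ = σ := by
    intro τ
    by_contra hcon
    push Not at hcon
    have h1 : ({1, σ, τ} : Finset (F ≃ₐ[ℚ] F)).card = 3 := by
      rw [Finset.card_eq_three]
      exact ⟨1, σ, τ, hσ.symm, hcon.1.symm, hcon.2.symm, rfl⟩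
    have h2 := Finset.card_le_univ ({1, σ, τ} : Finset (F ≃ₐ[ℚ] F))
    rw [h1, ← Nat.card_eq_fintype_card, hcard] at h2
    omega
  refine ⟨(σ : F →+* F), ?_, ?_⟩
  · intro x
    have h1 : σ * σ = 1 := by
      rcases hall (σ * σ) with h | h
      · exact h
      · exfalso
        exact hσ (mul_eq_left.1 h)
    change (σ * σ) x = x
    rw [h1]
    rfl
  · intro x hx
    have h1 : x ∈ (⊥ : IntermediateField ℚ F) := by
      rw [IsGalois.mem_bot_iff_fixed]
      intro τ
      rcases hall τ with h | h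
      · rw [h]
        rfl
      · rw [h]
        exact hx
    rw [IntermediateField.mem_bot] at h1
    obtain ⟨q, hq⟩ := h1
    exact ⟨q, by rw [← hq]; rfl⟩

/-- The pair over the Eisenstein integers. -/
theorem eis_aux (E : Type) [Field E] [NumberField E] [hE : IsCyclotomicExtension {3} ℚ E] {ω : E}
    (hζ : IsPrimitiveRoot ω 3) {p : ℕ} (hp : p.Prime) (hp5 : 5 ≤ p) {u v q r : ℤ} (huv : IsCoprime u v)
    (h3 : ¬ (3 : ℤ) ∣ q) (hr : r ≠ 0) (h1 : u - v = r ^ p) (h2 : u ^ 2 + u * v + v ^ 2 = q ^ p) :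
    ∃ S : ℚ, luc S ((q : ℚ) / r ^ 2) p = 1 := by
  classical
  have hodd : Odd p := hp.odd_of_ne_two (by omega)
  have hp6 : p % 6 = 1 ∨ p % 6 = 5 := by
    have h2 : ¬ 2 ∣ p := fun h => by
      have := (Nat.prime_dvd_prime_iff_eq Nat.prime_two hp).1 h
      omega
    have h3 : ¬ 3 ∣ p := fun h => by
      have := (Nat.prime_dvd_prime_iff_eq Nat.prime_three hp).1 h
      omega
    omega
  have hpid : IsPrincipalIdealRing (𝓞 E) := IsCyclotomicExtension.Rat.three_pid E
  set z : 𝓞 E := hζ.toInteger with hz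
  have hzω : algebraMap (𝓞 E) E z = ω := rfl
  have hinj := FaithfulSMul.algebraMap_injective (𝓞 E) E
  have hz3 : z ^ 3 = 1 := hζ.toInteger_isPrimitiveRoot.pow_eq_one
  have hzsum : z ^ 2 + z + 1 = 0 := by
    have h4 : z ≠ 1 := hζ.toInteger_isPrimitiveRoot.ne_one (by norm_num)
    have h5 : (z - 1) * (z ^ 2 + z + 1) = 0 := by linear_combination hz3
    rcases mul_eq_zero.1 h5 with h6 | h6
    · exact absurd (sub_eq_zero.1 h6) h4
    · exact h6
  have hωsum : ω ^ 2 + ω + 1 = 0 := by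
    have := congrArg (algebraMap (𝓞 E) E) hzsum
    rw [map_add, map_add, map_pow, map_one, map_zero, hzω] at this
    exact this
  have hω3 : ω ^ 3 = 1 := by linear_combination (ω - 1) * hωsum
  have hq0 : q ≠ 0 := by
    rintro rfl
    exact h3 (dvd_zero _)
  have hprod : ((u : 𝓞 E) - z * v) * (u - z ^ 2 * v) = (q : 𝓞 E) ^ p := by
    have h4 : ((u ^ 2 + u * v + v ^ 2 : ℤ) : 𝓞 E) = ((q ^ p : ℤ) : 𝓞 E) := by rw [h2]
    push_cast at h4
    rw [← h4]
    linear_combination (-(u : 𝓞 E) * v) * hzsum + (v : 𝓞 E) ^ 2 * hz3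
  obtain ⟨a, b, hab⟩ := huv
  have hab' : (a : 𝓞 E) * u + b * v = 1 := by
    have := congrArg (fun n : ℤ => (n : 𝓞 E)) hab
    push_cast at this
    exact this
  have hcop : IsCoprime ((u : 𝓞 E) - z * v) (u - z ^ 2 * v) := by
    apply isCoprime_of_prime_dvd
    · rintro ⟨h4, -⟩
      rw [h4, zero_mul] at hprod
      have h5 : (q : 𝓞 E) = 0 := pow_eq_zero_iff hp.ne_zero |>.1 hprod.symm
      exact hq0 (by exact_mod_cast h5)
    · intro π hπ h4 h5
      have h6 : π ∣ z ^ 2 - z := by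
        have e : z ^ 2 - z = a * (z ^ 2 * (u - z * v) - z * (u - z ^ 2 * v)) +
            b * ((u - z * v) - (u - z ^ 2 * v)) := by
          linear_combination (-(z ^ 2 - z)) * hab'
        rw [e]
        exact dvd_add ((dvd_sub (h4.mul_left _) (h5.mul_left _)).mul_left _)
          ((dvd_sub h4 h5).mul_left _)
      have h7 : π ∣ (3 : 𝓞 E) := by
        have e : (3 : 𝓞 E) = -((z ^ 2 - z) * (z ^ 2 - z)) := by
          linear_combination (z ^ 2 - 3 * z + 3) * hzsum
        rw [e, dvd_neg]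
        exact h6.mul_right _
      have h8 : π ∣ (q : 𝓞 E) := by
        apply hπ.dvd_of_dvd_pow (n := p)
        rw [← hprod]
        exact h4.mul_right _
      obtain ⟨c, d, hcd⟩ : IsCoprime (3 : ℤ) q :=
        (Int.prime_three.coprime_iff_not_dvd).2 h3
      apply hπ.not_isUnit
      apply isUnit_of_dvd_one
      have e : (1 : 𝓞 E) = c * 3 + d * q := by
        have := congrArg (fun n : ℤ => (n : 𝓞 E)) hcd
        push_cast at this
        exact this.symm
      rw [e]
      exact dvd_add (h7.mul_left _) (h8.mul_left _)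
  obtain ⟨d, ε, hd⟩ := exists_associated_pow_of_mul_eq_pow' hcop hprod
  -- units are `p`-th powers
  obtain ⟨ε', hε'⟩ : ∃ ε' : (𝓞 E)ˣ, ε = ε' ^ p := by
    have h6 : ε ^ 6 = 1 := by
      have hη : (hζ.toInteger_isPrimitiveRoot.isUnit (by norm_num)).unit ^ 3 = 1 := by
        ext
        rw [Units.val_pow_eq_pow_val, Units.val_one]
        change (algebraMap (𝓞 E) E) (z ^ 3) = _
        rw [hz3]
      have h5 := IsCyclotomicExtension.Rat.Three.Units.mem hζ ε
      set η := (hζ.toInteger_isPrimitiveRoot.isUnit (by norm_num : (3 : ℕ) ≠ 0)).unit with hηdef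
      have hη6 : η ^ 6 = 1 := by
        rw [show 6 = 3 * 2 from rfl, pow_mul, hη, one_pow]
      have hη12 : (η ^ 2) ^ 6 = 1 := by
        rw [← pow_mul, show 2 * 6 = 6 * 2 from rfl, pow_mul, hη6, one_pow]
      have e6 : ∀ w : (𝓞 E)ˣ, (-w) ^ 6 = w ^ 6 := fun w => Even.neg_pow (by decide) w
      simp only [List.mem_cons, List.not_mem_nil, or_false] at h5
      rcases h5 with h5 | h5 | h5 | h5 | h5 | h5
      · rw [h5, one_pow]
      · rw [h5, e6, one_pow]
      · rw [h5]
        exact hη6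
      · rw [h5, e6]
        exact hη6
      · rw [h5]
        exact hη12
      · rw [h5, e6]
        exact hη12
    rcases hp6 with h | h
    · refine ⟨ε, ?_⟩
      rw [← Nat.div_add_mod p 6, h, pow_add, pow_mul, h6, one_pow, one_mul, pow_one]
    · refine ⟨ε⁻¹, ?_⟩
      rw [inv_pow, ← Nat.div_add_mod p 6, h, pow_add, pow_mul, h6, one_pow, one_mul]
      rw [eq_inv_iff_mul_eq_one, ← pow_succ']
      exact h6
  have hγ : (u : 𝓞 E) - z * v = (d * ε') ^ p := by
    rw [← hd, hε', mul_pow, Units.val_pow_eq_pow_val]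
  set γ : E := algebraMap (𝓞 E) E (d * ε') with hγdef
  have hγE : (u : E) - ω * v = γ ^ p := by
    have := congrArg (algebraMap (𝓞 E) E) hγ
    rw [map_sub, map_mul, map_intCast, map_intCast, hzω, map_pow] at this
    exact this
  obtain ⟨ω', hω'⟩ : ∃ ω' : E, ω' ^ p = ω := by
    have hp3 : p % 3 = 1 ∨ p % 3 = 2 := by omega
    rcases hp3 with h | h
    · refine ⟨ω, ?_⟩
      rw [← Nat.div_add_mod p 3, h, pow_add, pow_mul, hω3, one_pow, one_mul, pow_one]
    · refine ⟨ω ^ 2, ?_⟩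
      rw [← pow_mul, mul_comm 2 p, pow_mul, ← Nat.div_add_mod p 3, h, pow_add, pow_mul, hω3,
        one_pow, one_mul]
      linear_combination ω * hω3
  -- conjugation
  have hfin : Module.finrank ℚ E = 2 := by
    rw [IsCyclotomicExtension.finrank (n := 3) E
      (Polynomial.cyclotomic.irreducible_rat (by norm_num))]
    rfl
  obtain ⟨σ, hσσ, hσ⟩ := exists_conj E hfin
  have hσω : σ ω = ω ^ 2 := by
    have h4 : σ ω ≠ ω := by
      intro h4
      obtain ⟨x, hx⟩ := hσ ω h4
      have h5 : (x : ℚ) ^ 2 + x + 1 = 0 := by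
        have h6 := hωsum
        rw [hx] at h6
        exact_mod_cast h6
      nlinarith [sq_nonneg (2 * x + 1)]
    have h5 : (σ ω - ω) * (σ ω - ω ^ 2) = 0 := by
      have h6 : (σ ω) ^ 2 + σ ω + 1 = 0 := by
        have := congrArg σ hωsum
        rw [map_add, map_add, map_pow, map_one, map_zero] at this
        exact this
      linear_combination h6 - (σ ω) * hωsum + hω3
    rcases mul_eq_zero.1 h5 with h6 | h6
    · exact absurd (sub_eq_zero.1 h6) h4
    · exact sub_eq_zero.1 h6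
  have hrE : (r : E) ≠ 0 := by exact_mod_cast hr
  set g : E := -(ω' * γ / r) with hg
  have hgp : g ^ p = -(ω * (u - ω * v) / r ^ p) := by
    rw [hg, hodd.neg_pow, div_pow, mul_pow, hω', hγE]
  have hσgp : (σ g) ^ p = -(ω ^ 2 * (u - ω ^ 2 * v) / r ^ p) := by
    rw [← map_pow, hgp, map_neg, map_div₀, map_mul, map_sub, map_mul, hσω, map_pow, map_intCast,
      map_intCast, map_intCast]
  have h1E : (u : E) - v = (r : E) ^ p := by
    have := congrArg (fun n : ℤ => (n : E)) h1
    push_cast at this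
    exact this
  have h2E : (u : E) ^ 2 + u * v + v ^ 2 = (q : E) ^ p := by
    have := congrArg (fun n : ℤ => (n : E)) h2
    push_cast at this
    exact this
  have hrp : (r : E) ^ p ≠ 0 := pow_ne_zero _ hrE
  have hsum : g ^ p + (σ g) ^ p = 1 := by
    rw [hgp, hσgp]
    field_simp
    rw [← h1E]
    linear_combination (-(u : E) + v * (ω ^ 2 - ω + 1)) * hωsum
  have hmul : g ^ p * (σ g) ^ p = ((q : E) / r ^ 2) ^ p := by
    rw [hgp, hσgp, div_pow, ← h2E, ← pow_mul, mul_comm 2 p, pow_mul]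
    field_simp
    linear_combination ((u : E) ^ 2 - ω * (ω + 1) * u * v + ω ^ 3 * v ^ 2 + v ^ 2) * hω3 -
      (u : E) * v * hωsum
  obtain ⟨S, hS⟩ := hσ (g + σ g) (by rw [map_add, hσσ, add_comm])
  obtain ⟨N, hN⟩ := hσ (g * σ g) (by rw [map_mul, hσσ, mul_comm])
  have hN2 : N = (q : ℚ) / r ^ 2 := by
    apply (Odd.strictMono_pow hodd).injective
    rw [← mul_pow, hN] at hmul
    exact_mod_cast hmul
  refine ⟨S, ?_⟩
  rw [← hN2]
  have h9 : luc (S : E) (N : E) p = 1 := by rw [luc_eq hS hN, hsum]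
  have h10 := luc_map (algebraMap ℚ E) S N p
  have h11 : luc (algebraMap ℚ E S) (algebraMap ℚ E N) p = 1 := by simpa using h9
  rw [h11] at h10
  exact (algebraMap ℚ E).injective (by rw [← h10, map_one])

/-- the cyclotomic fields, with the canonical structure of an algebra over the rational numbers -/
lemma cycQ (n : ℕ) : IsCyclotomicExtension {n} ℚ (CyclotomicField n ℚ) := by
  have e : (CyclotomicField.algebra n ℚ : Algebra ℚ (CyclotomicField n ℚ)) =
    DivisionRing.toRatAlgebra := Subsingleton.elim _ _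
  rw [← e]
  infer_instance

/-- The pair over the Eisenstein integers. -/
theorem eis {p : ℕ} (hp : p.Prime) (hp5 : 5 ≤ p) {u v q r : ℤ} (huv : IsCoprime u v)
    (h3 : ¬ (3 : ℤ) ∣ q) (hr : r ≠ 0) (h1 : u - v = r ^ p) (h2 : u ^ 2 + u * v + v ^ 2 = q ^ p) :
    ∃ S : ℚ, luc S ((q : ℚ) / r ^ 2) p = 1 :=
  have := cycQ 3
  eis_aux (CyclotomicField 3 ℚ) (IsCyclotomicExtension.zeta_spec 3 ℚ (CyclotomicField 3 ℚ)) hp hp5
    huv h3 hr h1 h2

end Pool.Agent.K3h44.FQ
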