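import Pool.Agent.K3h44.FQ.Rat

/-!
# Fermat's Last Theorem for regular primes, over the rational integers
-/

set_option autoImplicit false
set_option linter.unusedSectionVars false

namespace Pool.Agent.K3h44.FQ

open NumberField IsDedekindDomain WithZero Polynomial Pool.Agent.Y158.KL

/-- the cofactor of `x + y` -/
lemma exists_cof {n : ℕ} (hn : n.Prime) (hodd : Odd n) {x y : ℤ} (hxy : IsCoprime x y)
    (hs : ¬ (n : ℤ) ∣ x + y) : ∃ T : ℤ, x ^ n + y ^ n = (x + y) * T ∧ IsCoprime (x + y) T := by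
  have hnZ : Prime (n : ℤ) := Nat.prime_iff_prime_int.1 hn
  refine ⟨∑ i ∈ Finset.range n, x ^ i * (-y) ^ (n - 1 - i), ?_, ?_⟩
  · have h := geom_sum₂_mul x (-y) n
    rw [hodd.neg_pow] at h
    linear_combination -h
  · apply isCoprime_of_prime_dvd
    · rintro ⟨h0, -⟩
      apply hs
      rw [h0]
      exact dvd_zero _
    · intro π hπ h1 h2
      have h1' : π ∣ x - (-y) := by rwa [sub_neg_eq_add]
      rw [dvd_geom_sum₂_iff_of_dvd_sub h1'] at h2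
      rcases hπ.dvd_or_dvd h2 with h3 | h3
      · have h4 : (n : ℤ) ∣ π := (hπ.irreducible.dvd_symm hnZ.irreducible) h3
        exact hs (h4.trans h1)
      · have h4 : π ∣ y := by
          have := hπ.dvd_of_dvd_pow h3
          rwa [dvd_neg] at this
        have h5 : π ∣ x := by
          have e : x = (x + y) - y := by ring
          rw [e]
          exact dvd_sub h1 h4
        exact hπ.not_isUnit (hxy.isUnit_of_dvd' h5 h4)

lemma cof_pow {n : ℕ} (hn : n.Prime) (hodd : Odd n) {x y : ℤ} (hxy : IsCoprime x y)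
    (hs : ¬ (n : ℤ) ∣ x + y) {k : ℕ} {m : ℤ} (hk : k = 0 ∨ (3 : ℤ) ∣ x + y)
    (h : x ^ n + y ^ n = 3 ^ k * m ^ n) : ∃ w : ℤ, x ^ n + y ^ n = (x + y) * w ^ n := by
  obtain ⟨T, hT, hc⟩ := exists_cof hn hodd hxy hs
  obtain ⟨X, hX⟩ : (3 : ℤ) ^ k ∣ x + y := by
    rcases hk with rfl | hk
    · rw [pow_zero]
      exact one_dvd _
    · have h3 : IsCoprime ((3 : ℤ) ^ k) T := (IsCoprime.of_isCoprime_of_dvd_left hc hk).pow_left
      refine h3.dvd_of_dvd_mul_right ?_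
      rw [← hT, h]
      exact dvd_mul_right _ _
  have h3 : (3 : ℤ) ^ k ≠ 0 := pow_ne_zero _ (by norm_num)
  have h4 : X * T = m ^ n := by
    apply mul_left_cancel₀ h3
    rw [← h, hT, hX]
    ring
  have h5 : IsCoprime X T := IsCoprime.of_isCoprime_of_dvd_left hc ⟨3 ^ k, by rw [hX]; ring⟩
  obtain ⟨w, hw⟩ := Int.eq_pow_of_mul_eq_pow_odd_right h5 hodd h4
  exact ⟨w, by rw [hT, hw]⟩

variable {K : Type} [Field K] [NumberField K] {ℓ : ℕ}
  [hp : Fact ℓ.Prime] [hK : IsCyclotomicExtension {ℓ} ℚ K] {ζ : K} (hζ : IsPrimitiveRoot ζ ℓ)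

lemma fermat_mod (a : ℤ) : (ℓ : ℤ) ∣ a ^ ℓ - a := by
  rw [← ZMod.intCast_zmod_eq_zero_iff_dvd _ ℓ]
  push_cast
  rw [ZMod.pow_card, sub_self]

include hζ in
lemma flt_case2 (hℓ5 : 5 ≤ ℓ) (hcop : (classNumber K).Coprime ℓ) {a b c : ℤ} (hc : c ≠ 0)
    (hb : ¬ (ℓ : ℤ) ∣ b) (h : a ^ ℓ + b ^ ℓ + c ^ ℓ = 0) : ¬ (ℓ : ℤ) ∣ c := by
  intro hlc
  have hodd : Odd ℓ := hp.out.odd_of_ne_two (by omega)
  have hb0 : b ≠ 0 := by
    rintro rfl
    exact hb (dvd_zero _)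
  have hbK : (b : K) ≠ 0 := by exact_mod_cast hb0
  have hcK : (c : K) ≠ 0 := by exact_mod_cast hc
  have hK' : (a : K) ^ ℓ + (b : K) ^ ℓ + (c : K) ^ ℓ = 0 := by exact_mod_cast h
  refine case2' hζ hodd hcop (x := (a : K) / b) (z := -(c : K) / b) (ε := 1)
    (div_ne_zero (neg_ne_zero.2 hcK) hbK) ?_ ?_
  · rw [Units.val_one, map_one, one_mul, div_pow, div_pow, hodd.neg_pow]
    field_simp
    linear_combination hK'
  · rw [map_div₀, Valuation.map_neg, W_intCast_one hζ hb, div_one]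
    obtain ⟨t, rfl⟩ := hlc
    push_cast
    rw [map_mul, W_ell]
    refine lt_of_le_of_lt (mul_le_of_le_one_right zero_le (W_intCast_le hζ t)) ?_
    rw [← exp_zero, exp_lt_exp]
    omega

include hζ in
lemma flt_case1 (hℓ5 : 5 ≤ ℓ) (hcop : (classNumber K).Coprime ℓ) {a b c : ℤ}
    (hab : IsCoprime a b) (ha : ¬ (ℓ : ℤ) ∣ a) (hb : ¬ (ℓ : ℤ) ∣ b)
    (hc : ¬ (ℓ : ℤ) ∣ c) (h : a ^ ℓ + b ^ ℓ + c ^ ℓ = 0) : (ℓ : ℤ) ∣ a - b := by
  have hodd : Odd ℓ := hp.out.odd_of_ne_two (by omega)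
  have hs : ¬ (ℓ : ℤ) ∣ a + b := by
    intro h1
    apply hc
    have h2 := fermat_mod (ℓ := ℓ) a
    have h3 := fermat_mod (ℓ := ℓ) b
    have h4 := fermat_mod (ℓ := ℓ) c
    have e : c = (a ^ ℓ + b ^ ℓ + c ^ ℓ) - (a ^ ℓ - a) - (b ^ ℓ - b) - (c ^ ℓ - c) - (a + b) := by
      ring
    rw [e, h]
    exact dvd_sub (dvd_sub (dvd_sub (dvd_sub (dvd_zero _) h2) h3) h4) h1
  obtain ⟨w, hw⟩ := cof_pow hp.out hodd hab hs (k := 0) (m := -c) (Or.inl rfl) (by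
    rw [hodd.neg_pow]
    linear_combination h)
  exact first_case hζ hℓ5 hcop hab ha hb hs hw

include hζ in
/-- **Fermat's Last Theorem for regular primes** -/
theorem flt_int (hℓ5 : 5 ≤ ℓ) (hcop : (classNumber K).Coprime ℓ) : FermatLastTheoremWith ℤ ℓ := by
  have hodd : Odd ℓ := hp.out.odd_of_ne_two (by omega)
  have hpZ : Prime (ℓ : ℤ) := Nat.prime_iff_prime_int.1 hp.out
  apply fermatLastTheoremWith_of_fermatLastTheoremWith_coprime
  intro a b c ha hb hc Hgcd hF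
  have h : a ^ ℓ + b ^ ℓ + (-c) ^ ℓ = 0 := by
    rw [hodd.neg_pow]
    linear_combination hF
  have hab : IsCoprime a b := by
    refine isCoprime_of_gcd_eq_one_of_FLT (n := ℓ) (c := -c) ?_ h
    rw [← Hgcd]
    simp only [Finset.gcd_insert, Finset.gcd_singleton, id]
    rw [← Int.abs_eq_normalize, ← Int.abs_eq_normalize, abs_neg]
  have hcop3 : ∀ x y z : ℤ, IsCoprime x y → x ^ ℓ + y ^ ℓ + z ^ ℓ = 0 → IsCoprime x z := by
    intro x y z hxy h0
    apply isCoprime_of_prime_dvd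
    · rintro ⟨rfl, rfl⟩
      rw [zero_pow hp.out.ne_zero, zero_add, add_zero] at h0
      rw [pow_eq_zero_iff hp.out.ne_zero] at h0
      rw [h0] at hxy
      exact not_isCoprime_zero_zero hxy
    · intro π hπ h1 h2
      have h3 : π ∣ y := dvd_c_of_prime_of_dvd_a_of_dvd_b_of_FLT hπ h1 h2
        (show x ^ ℓ + z ^ ℓ + y ^ ℓ = 0 by linear_combination h0)
      exact hπ.not_isUnit (hxy.isUnit_of_dvd' h1 h3)
  set d := -c with hd
  have hd0 : d ≠ 0 := neg_ne_zero.2 hc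
  have hac : IsCoprime a d := hcop3 a b d hab h
  have hbc : IsCoprime b d := hcop3 b a d hab.symm (by linear_combination h)
  have hnd : ∀ x y : ℤ, IsCoprime x y → (ℓ : ℤ) ∣ x → ¬ (ℓ : ℤ) ∣ y := by
    intro x y hxy h1 h2
    exact hpZ.not_isUnit (hxy.isUnit_of_dvd' h1 h2)
  have h1 : ¬ (ℓ : ℤ) ∣ d := by
    intro h1
    exact flt_case2 hζ hℓ5 hcop hd0 (hnd d b hbc.symm h1) h h1
  have h2 : ¬ (ℓ : ℤ) ∣ b := by
    intro h2
    exact flt_case2 hζ hℓ5 hcop (a := a) hb (hnd b d hbc h2) (by linear_combination h) h2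
  have h3 : ¬ (ℓ : ℤ) ∣ a := by
    intro h3
    exact flt_case2 hζ hℓ5 hcop (a := b) ha (hnd a d hac h3) (by linear_combination h) h3
  have h4 := flt_case1 hζ hℓ5 hcop hab h3 h2 h1 h
  have h5 := flt_case1 hζ hℓ5 hcop hac h3 h1 h2 (by linear_combination h)
  have h6 : (ℓ : ℤ) ∣ 3 * a := by
    have h2 := fermat_mod (ℓ := ℓ) a
    have h3 := fermat_mod (ℓ := ℓ) b
    have h7 := fermat_mod (ℓ := ℓ) d
    have e : 3 * a = (a ^ ℓ + b ^ ℓ + d ^ ℓ) - (a ^ ℓ - a) - (b ^ ℓ - b) - (d ^ ℓ - d) + (a - b)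
        + (a - d) := by
      ring
    rw [e, h]
    exact dvd_add (dvd_add (dvd_sub (dvd_sub (dvd_sub (dvd_zero _) h2) h3) h7) h4) h5
  rcases hpZ.dvd_or_dvd h6 with h7 | h7
  · have := Int.le_of_dvd (by norm_num) h7
    omega
  · exact h3 h7

end Pool.Agent.K3h44.FQ
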