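import Pool.Agent.K3h44.FQ.CT
import Pool.Agent.K3h44.FQ.FltQ
import Pool.Agent.K3h44.FQ.Eis

/-!
# The arithmetic of `3 t s ^ ℓ = t ^ 3 - 1`
-/

set_option autoImplicit false
set_option linter.unusedSectionVars false

namespace Pool.Agent.K3h44.FQ

open NumberField IsDedekindDomain WithZero Polynomial Pool.Agent.Y158.KL

lemma sq_pow {n : ℕ} (hn : Odd n) {v m : ℤ} (h : v ^ 2 = m ^ n) : ∃ b : ℤ, v = b ^ n := by
  obtain ⟨k, hk⟩ := hn
  have hn0 : n ≠ 0 := by omega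
  rcases eq_or_ne v 0 with rfl | hv
  · exact ⟨0, by rw [zero_pow hn0]⟩
  have h1 : v ^ n = (m ^ k) ^ n * v := by
    calc v ^ n = (v ^ 2) ^ k * v := by rw [hk]; ring
      _ = (m ^ k) ^ n * v := by rw [h]; ring
  have h2 : (m ^ k) ^ n ∣ v ^ n := ⟨v, h1⟩
  obtain ⟨b, hb⟩ := (Int.pow_dvd_pow_iff hn0).1 h2
  refine ⟨b, ?_⟩
  have hm : (m ^ k) ^ n ≠ 0 := by
    intro h0
    rw [h0, zero_mul] at h1
    exact pow_ne_zero _ hv h1
  apply mul_left_cancel₀ hm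
  rw [← h1, hb]
  ring

lemma three_fermat {n : ℕ} (hn : Odd n) (a : ℤ) : (3 : ℤ) ∣ a ^ n - a := by
  have h := (ZMod.intCast_zmod_eq_zero_iff_dvd (a ^ n - a) 3).1
  apply h
  clear h
  obtain ⟨k, rfl⟩ := hn
  push_cast
  generalize (a : ZMod 3) = x
  have h3 : ∀ x : ZMod 3, x ^ 3 = x := by decide
  have : x ^ (2 * k + 1) = x := by
    induction k with
    | zero => simp
    | succ k ih =>
      calc x ^ (2 * (k + 1) + 1) = x ^ (2 * k + 1) * x ^ 2 := by ring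
        _ = x ^ 3 := by rw [ih]; ring
        _ = x := h3 x
  rw [this, sub_self]

lemma pm_one_pow {n : ℕ} (hn : Odd n) {e : ℤ} (he : e = 1 ∨ e = -1) : e ^ n = e := by
  rcases he with rfl | rfl
  · exact one_pow _
  · exact hn.neg_one_pow

variable {K : Type} [Field K] [NumberField K] {ℓ : ℕ}
  [hp : Fact ℓ.Prime] [hK : IsCyclotomicExtension {ℓ} ℚ K] {ζ : K} (hζ : IsPrimitiveRoot ζ ℓ)

include hζ in
/-- the case `c = 3` -/
theorem caseA (hℓ5 : 5 ≤ ℓ) (hcop : (classNumber K).Coprime ℓ) {u v w1 w2 : ℤ}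
    (huv : IsCoprime u v) (hw10 : w1 ≠ 0) (hw20 : w2 ≠ 0) (h1 : u ^ 3 - v ^ 3 = 3 * w1 ^ ℓ)
    (h2 : u * v ^ 2 = w2 ^ ℓ) : False := by
  have hodd : Odd ℓ := hp.out.odd_of_ne_two (by omega)
  have huv2 : IsCoprime u (v ^ 2) := huv.pow_right
  obtain ⟨a, ha⟩ := Int.eq_pow_of_mul_eq_pow_odd_left huv2 hodd h2
  obtain ⟨b', hb'⟩ := Int.eq_pow_of_mul_eq_pow_odd_right huv2 hodd h2
  obtain ⟨b, hb⟩ := sq_pow hodd hb'
  have h3 : (3 : ℤ) ∣ u - v := by
    have e : u - v = (u ^ 3 - v ^ 3) - (u ^ 3 - u) + (v ^ 3 - v) := by ring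
    rw [e, h1]
    exact dvd_add (dvd_sub (dvd_mul_right _ _) (three_fermat (by decide) u))
      (three_fermat (by decide) v)
  obtain ⟨d, hd⟩ := h3
  have hQ : u ^ 2 + u * v + v ^ 2 = 3 * (v ^ 2 + 3 * d * v + 3 * d ^ 2) := by
    have e : u = v + 3 * d := by linarith
    rw [e]
    ring
  set Q := v ^ 2 + 3 * d * v + 3 * d ^ 2 with hQdef
  have h4 : (u - v) * Q = w1 ^ ℓ := by
    have e : u ^ 3 - v ^ 3 = (u - v) * (u ^ 2 + u * v + v ^ 2) := by ring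
    rw [e, hQ] at h1
    have : (3 : ℤ) * ((u - v) * Q) = 3 * w1 ^ ℓ := by linear_combination h1
    exact mul_left_cancel₀ (by norm_num) this
  have h3v : ¬ (3 : ℤ) ∣ v := by
    intro h5
    have h6 : (3 : ℤ) ∣ u := by
      have e : u = v + 3 * d := by linarith
      rw [e]
      exact dvd_add h5 (dvd_mul_right _ _)
    exact Int.prime_three.not_isUnit (huv.isUnit_of_dvd' h6 h5)
  have hc : IsCoprime (u - v) Q := by
    apply isCoprime_of_prime_dvd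
    · rintro ⟨h5, -⟩
      rw [h5, zero_mul] at h4
      exact pow_ne_zero _ hw10 h4.symm
    · intro π hπ h5 h6
      have h7 : π ∣ 3 * v ^ 2 := by
        have e : 3 * v ^ 2 = 3 * Q - (u - v) * (u + 2 * v) := by
          rw [← hQ]
          ring
        rw [e]
        exact dvd_sub (h6.mul_left _) (h5.mul_right _)
      rcases hπ.dvd_or_dvd h7 with h8 | h8
      · -- `π` is associated to `3`, and `3` divides `Q`, so it divides `v`
        have h9 : (3 : ℤ) ∣ π := (hπ.irreducible.dvd_symm Int.prime_three.irreducible) h8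
        have h10 : (3 : ℤ) ∣ v ^ 2 := by
          have e : v ^ 2 = Q - 3 * (d * v + d ^ 2) := by
            rw [hQdef]
            ring
          rw [e]
          exact dvd_sub (h9.trans h6) (dvd_mul_right _ _)
        exact h3v (Int.prime_three.dvd_of_dvd_pow h10)
      · have h9 := hπ.dvd_of_dvd_pow h8
        have h10 : π ∣ u := by
          have e : u = (u - v) + v := by ring
          rw [e]
          exact dvd_add h5 h9
        exact hπ.not_isUnit (huv.isUnit_of_dvd' h10 h9)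
  obtain ⟨r, hr⟩ := Int.eq_pow_of_mul_eq_pow_odd_left hc hodd h4
  have hne : w2 ^ ℓ ≠ 0 := pow_ne_zero _ hw20
  have ha0 : a ≠ 0 := by
    rintro rfl
    rw [zero_pow hp.out.ne_zero] at ha
    rw [← h2, ha, zero_mul] at hne
    exact hne rfl
  have hb0 : b ≠ 0 := by
    rintro rfl
    rw [zero_pow hp.out.ne_zero] at hb
    rw [← h2, hb, zero_pow two_ne_zero, mul_zero] at hne
    exact hne rfl
  have hr0 : r ≠ 0 := by
    rintro rfl
    rw [zero_pow hp.out.ne_zero] at hr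
    rw [hr, zero_mul] at h4
    exact pow_ne_zero _ hw10 h4.symm
  exact flt_int hζ hℓ5 hcop r b a hr0 hb0 ha0 (by rw [← hr, ← hb, ← ha]; ring)

lemma caseB_rq {ℓ : ℕ} (hodd : Odd ℓ) {u v w1 : ℤ} (huv : IsCoprime u v)
    (h3 : ¬ (3 : ℤ) ∣ u ^ 3 - v ^ 3) (h1 : u ^ 3 - v ^ 3 = w1 ^ ℓ) :
    ∃ r q : ℤ, u - v = r ^ ℓ ∧ u ^ 2 + u * v + v ^ 2 = q ^ ℓ ∧ w1 = r * q ∧ IsCoprime r q := by
  have hl0 : ℓ ≠ 0 := by
    rintro rfl
    simp at hodd
  set Q := u ^ 2 + u * v + v ^ 2 with hQ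
  have h4 : (u - v) * Q = w1 ^ ℓ := by
    rw [← h1, hQ]
    ring
  have hc : IsCoprime (u - v) Q := by
    apply isCoprime_of_prime_dvd
    · rintro ⟨h5, -⟩
      apply h3
      have e : u ^ 3 - v ^ 3 = (u - v) * Q := by
        rw [hQ]
        ring
      rw [e, h5, zero_mul]
      exact dvd_zero _
    · intro π hπ h5 h6
      have h7 : π ∣ 3 * v ^ 2 := by
        have e : 3 * v ^ 2 = Q - (u - v) * (u + 2 * v) := by
          rw [hQ]
          ring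
        rw [e]
        exact dvd_sub h6 (h5.mul_right _)
      rcases hπ.dvd_or_dvd h7 with h8 | h8
      · have h9 : (3 : ℤ) ∣ π := (hπ.irreducible.dvd_symm Int.prime_three.irreducible) h8
        apply h3
        have e : u ^ 3 - v ^ 3 = (u - v) * Q := by
          rw [hQ]
          ring
        rw [e]
        exact (h9.trans h5).mul_right _
      · have h9 := hπ.dvd_of_dvd_pow h8
        have h10 : π ∣ u := by
          have e : u = (u - v) + v := by ring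
          rw [e]
          exact dvd_add h5 h9
        exact hπ.not_isUnit (huv.isUnit_of_dvd' h10 h9)
  obtain ⟨r, hr⟩ := Int.eq_pow_of_mul_eq_pow_odd_left hc hodd h4
  obtain ⟨q, hq⟩ := Int.eq_pow_of_mul_eq_pow_odd_right hc hodd h4
  refine ⟨r, q, hr, hq, ?_, ?_⟩
  · apply hodd.strictMono_pow.injective
    change w1 ^ ℓ = (r * q) ^ ℓ
    rw [← h4, hr, hq, mul_pow]
  · rw [hr, hq] at hc
    exact (IsCoprime.pow_iff (Nat.pos_of_ne_zero hl0) (Nat.pos_of_ne_zero hl0)).1 hc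

include hζ in
/-- the case `c = 1`, `3 ∣ u` -/
theorem caseB1 (hℓ5 : 5 ≤ ℓ) (hcop : (classNumber K).Coprime ℓ) {u v w1 w2 : ℤ}
    (huv : IsCoprime u v) (hw10 : w1 ≠ 0) (hw20 : w2 ≠ 0) (h3u : (3 : ℤ) ∣ u)
    (h3 : ¬ (3 : ℤ) ∣ u ^ 3 - v ^ 3) (h1 : u ^ 3 - v ^ 3 = w1 ^ ℓ)
    (h2 : 3 * u * v ^ 2 = w2 ^ ℓ) : False := by
  have hodd : Odd ℓ := hp.out.odd_of_ne_two (by omega)
  obtain ⟨r, q, hr, hq, hrq, -⟩ := caseB_rq hodd huv h3 h1
  have h3v : ¬ (3 : ℤ) ∣ v := fun h5 => Int.prime_three.not_isUnit (huv.isUnit_of_dvd' h3u h5)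
  have hc : IsCoprime (3 * u) (v ^ 2) :=
    (IsCoprime.mul_left (Int.prime_three.coprime_iff_not_dvd.2 h3v) huv).pow_right
  obtain ⟨A, hA⟩ := Int.eq_pow_of_mul_eq_pow_odd_left hc hodd h2
  obtain ⟨b', hb'⟩ := Int.eq_pow_of_mul_eq_pow_odd_right hc hodd h2
  obtain ⟨b, hb⟩ := sq_pow hodd hb'
  have hne : w2 ^ ℓ ≠ 0 := pow_ne_zero _ hw20
  have hA0 : A ≠ 0 := by
    rintro rfl
    rw [zero_pow hp.out.ne_zero] at hA
    rw [← h2, hA, zero_mul] at hne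
    exact hne rfl
  have hb0 : b ≠ 0 := by
    rintro rfl
    rw [zero_pow hp.out.ne_zero] at hb
    rw [← h2, hb, zero_pow two_ne_zero, mul_zero] at hne
    exact hne rfl
  rw [hrq] at hw10
  have hr0 : r ≠ 0 := left_ne_zero_of_mul hw10
  have hq0 : q ≠ 0 := right_ne_zero_of_mul hw10
  refine flt_int hζ hℓ5 hcop (r ^ 2) (A * b) q (pow_ne_zero _ hr0) (mul_ne_zero hA0 hb0) hq0 ?_
  rw [← pow_mul, mul_comm 2 ℓ, pow_mul, ← hr, mul_pow, ← hA, ← hb, ← hq]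
  ring

lemma three_sq {n : ℕ} (hn : Odd n) {v B : ℤ} (hv : v ≠ 0) (h : 3 * v ^ 2 = B ^ n) :
    ∃ (k : ℕ) (m : ℤ), v = 3 ^ k * m ^ n := by
  have hfin : FiniteMultiplicity (3 : ℤ) v :=
    Int.finiteMultiplicity_iff.2 ⟨by decide, hv⟩
  obtain ⟨v', hv', h3⟩ := hfin.exists_eq_pow_mul_and_not_dvd
  set k := multiplicity (3 : ℤ) v
  have h4 : (3 : ℤ) ^ (2 * k + 1) * v' ^ 2 = B ^ n := by
    rw [← h, hv']
    ring
  have hc : IsCoprime ((3 : ℤ) ^ (2 * k + 1)) (v' ^ 2) :=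
    (Int.prime_three.coprime_iff_not_dvd.2 h3).pow
  obtain ⟨c, hc'⟩ := Int.eq_pow_of_mul_eq_pow_odd_right hc hn h4
  obtain ⟨m, hm⟩ := sq_pow hn hc'
  exact ⟨k, m, by rw [← hm]; exact hv'⟩

lemma no_49 {a B v : ℤ} (ha : ¬ (7 : ℤ) ∣ a) (hB : ¬ (7 : ℤ) ∣ B)
    (h1 : (49 : ℤ) ∣ (a ^ 7) ^ 3 - v ^ 3) (h2 : 3 * v ^ 2 = B ^ 7) : False := by
  have h7 : Prime (7 : ℤ) := Int.prime_iff_natAbs_prime.2 (by norm_num)
  have htot : Nat.totient 49 = 42 := by decide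
  have hunit : ∀ x : ℤ, ¬ (7 : ℤ) ∣ x → (x : ZMod 49) ^ 42 = 1 := by
    intro x hx
    have hc : IsCoprime ((49 : ℕ) : ℤ) x := by
      have : ((49 : ℕ) : ℤ) = 7 ^ 2 := by norm_num
      rw [this]
      exact (h7.coprime_iff_not_dvd.2 hx).pow_left
    obtain ⟨w, hw⟩ := (ZMod.coe_int_isUnit_iff_isCoprime x 49).2 hc
    rw [← hw, ← Units.val_pow_eq_pow_val, ← htot, ZMod.pow_totient, Units.val_one]
  have e1 : ((a : ZMod 49) ^ 7) ^ 3 = (v : ZMod 49) ^ 3 := by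
    have h3 : (((a ^ 7) ^ 3 - v ^ 3 : ℤ) : ZMod 49) = 0 := by
      rw [ZMod.intCast_zmod_eq_zero_iff_dvd]
      exact h1
    push_cast at h3
    exact sub_eq_zero.1 h3
  have e2 : 3 * (v : ZMod 49) ^ 2 = (B : ZMod 49) ^ 7 := by
    have := congrArg (fun n : ℤ => (n : ZMod 49)) h2
    push_cast at this
    exact this
  have e3 : (27 : ZMod 49) * (a : ZMod 49) ^ 42 = (B : ZMod 49) ^ 21 := by
    calc (27 : ZMod 49) * (a : ZMod 49) ^ 42 = 27 * (((a : ZMod 49) ^ 7) ^ 3) ^ 2 := by ring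
      _ = (3 * (v : ZMod 49) ^ 2) ^ 3 := by rw [e1]; ring
      _ = (B : ZMod 49) ^ 21 := by rw [e2]; ring
  rw [hunit a ha, mul_one] at e3
  have e4 : (27 : ZMod 49) ^ 2 = 1 := by
    rw [e3, ← pow_mul]
    exact hunit B hB
  exact absurd e4 (by decide)

include hζ in
/-- the case `c = 1`, `3 ∣ v` -/
theorem caseB2 (hℓ5 : 5 ≤ ℓ) (hcop : (classNumber K).Coprime ℓ) {u v w1 w2 : ℤ}
    (huv : IsCoprime u v) (hw10 : w1 ≠ 0) (hw20 : w2 ≠ 0) (hlw : ¬ (ℓ : ℤ) ∣ w2)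
    (h3v : (3 : ℤ) ∣ v) (h3 : ¬ (3 : ℤ) ∣ u ^ 3 - v ^ 3) (h1 : u ^ 3 - v ^ 3 = w1 ^ ℓ)
    (h2 : 3 * u * v ^ 2 = w2 ^ ℓ) : False := by
  have hodd : Odd ℓ := hp.out.odd_of_ne_two (by omega)
  have hl0 := hp.out.ne_zero
  have hpZ : Prime (ℓ : ℤ) := Nat.prime_iff_prime_int.1 hp.out
  obtain ⟨r, q, hr, hq, hrq, hcrq⟩ := caseB_rq hodd huv h3 h1
  have h3u : ¬ (3 : ℤ) ∣ u := fun h5 => Int.prime_three.not_isUnit (huv.isUnit_of_dvd' h5 h3v)
  have hc : IsCoprime u (3 * v ^ 2) :=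
    IsCoprime.mul_right (Int.prime_three.coprime_iff_not_dvd.2 h3u).symm huv.pow_right
  have h2' : u * (3 * v ^ 2) = w2 ^ ℓ := by
    rw [← h2]
    ring
  obtain ⟨a, ha⟩ := Int.eq_pow_of_mul_eq_pow_odd_left hc hodd h2'
  obtain ⟨B, hB⟩ := Int.eq_pow_of_mul_eq_pow_odd_right hc hodd h2'
  have hne : w2 ^ ℓ ≠ 0 := pow_ne_zero _ hw20
  have hv0 : v ≠ 0 := by
    rintro rfl
    rw [← h2, zero_pow two_ne_zero, mul_zero] at hne
    exact hne rfl
  have hw2 : w2 = a * B := by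
    apply hodd.strictMono_pow.injective
    change w2 ^ ℓ = (a * B) ^ ℓ
    rw [← h2', ha, hB, mul_pow]
  have hla : ¬ (ℓ : ℤ) ∣ a := fun h => hlw (by rw [hw2]; exact h.mul_right _)
  have hlB : ¬ (ℓ : ℤ) ∣ B := fun h => hlw (by rw [hw2]; exact h.mul_left _)
  have hlu : ¬ (ℓ : ℤ) ∣ u := fun h => hla (by rw [ha] at h; exact hpZ.dvd_of_dvd_pow h)
  have hlv : ¬ (ℓ : ℤ) ∣ v := fun h => hlB (by
    apply hpZ.dvd_of_dvd_pow (n := ℓ)
    rw [← hB]
    exact (dvd_pow h two_ne_zero).mul_left 3)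
  have h3q : ¬ (3 : ℤ) ∣ q := by
    intro h
    apply h3
    rw [h1, hrq, mul_pow]
    exact (dvd_pow h hl0).mul_left _
  rw [hrq] at hw10
  have hr0 : r ≠ 0 := left_ne_zero_of_mul hw10
  have hq0 : q ≠ 0 := right_ne_zero_of_mul hw10
  -- the case where `ℓ` divides `r`
  have hlr : ¬ (ℓ : ℤ) ∣ r := by
    intro h
    obtain ⟨S, hS⟩ := eis hp.out hℓ5 huv h3q hr0 hr hq
    have h4 := ct hζ hℓ5 hcop hS
    have hlq : ¬ (ℓ : ℤ) ∣ q := fun h5 => hpZ.not_isUnit (hcrq.isUnit_of_dvd' h h5)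
    have hqQ : (q : ℚ) ≠ 0 := by exact_mod_cast hq0
    have hrQ : (r : ℚ) ≠ 0 := by exact_mod_cast hr0
    rw [padicValRat.div hqQ (pow_ne_zero _ hrQ), padicValRat.pow, padicValRat.of_int,
      padicValRat.of_int, padicValInt.eq_zero_of_not_dvd hlq] at h4
    have h5 : padicValInt ℓ r ≠ 0 := by
      intro h6
      rw [padicValInt.eq_zero_iff] at h6
      rcases h6 with h6 | h6 | h6
      · exact hp.out.ne_one h6
      · exact hr0 h6
      · exact h6 h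
    have h6 : 0 < padicValInt ℓ r := Nat.pos_of_ne_zero h5
    push_cast at h4
    omega
  -- the first case for `a` and `- r`
  obtain ⟨k, m, hvk⟩ := three_sq hodd hv0 hB
  have hcar : IsCoprime a (-r) := by
    have h4 : IsCoprime (a ^ ℓ) ((-r) ^ ℓ) := by
      rw [hodd.neg_pow, ← ha, ← hr]
      obtain ⟨x, y, hxy⟩ := huv
      exact ⟨x + y, y, by linear_combination hxy⟩
    exact (IsCoprime.pow_iff (Nat.pos_of_ne_zero hl0) (Nat.pos_of_ne_zero hl0)).1 h4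
  have hfa := fermat_mod (ℓ := ℓ) a
  have hfr := fermat_mod (ℓ := ℓ) r
  have hsum1 : a ^ ℓ + (-r) ^ ℓ = v := by
    rw [hodd.neg_pow, ← ha, ← hr]
    ring
  have hs1 : ¬ (ℓ : ℤ) ∣ a + (-r) := by
    intro h
    apply hlv
    have e : v = (a ^ ℓ - a) - (r ^ ℓ - r) + (a + (-r)) := by
      rw [← ha, ← hr]
      ring
    rw [e]
    exact dvd_add (dvd_sub hfa hfr) h
  have h31 : (3 : ℤ) ∣ a + (-r) := by
    have e : a + (-r) = v - (a ^ ℓ - a) + (r ^ ℓ - r) := by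
      rw [← ha, ← hr]
      ring
    rw [e]
    exact dvd_add (dvd_sub h3v (three_fermat hodd a)) (three_fermat hodd r)
  obtain ⟨x1, hx1⟩ := cof_pow hp.out hodd hcar hs1 (Or.inr h31) (hsum1.trans hvk)
  have hd1 := first_case hζ hℓ5 hcop hcar hla (by rwa [dvd_neg]) hs1 hx1
  -- residues
  have z1 : (a : ZMod ℓ) + r = 0 := by
    have h5 := (ZMod.intCast_zmod_eq_zero_iff_dvd _ ℓ).2 hd1
    push_cast at h5
    linear_combination h5
  have zu : (u : ZMod ℓ) = a := by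
    rw [ha]
    push_cast
    exact ZMod.pow_card _
  have zv : (v : ZMod ℓ) = 2 * a := by
    have h5 := congrArg (fun n : ℤ => (n : ZMod ℓ)) hr
    push_cast at h5
    rw [ZMod.pow_card, zu] at h5
    linear_combination (-1 : ZMod ℓ) * h5 - z1
  have zq : (q : ZMod ℓ) = 7 * a ^ 2 := by
    have h5 := congrArg (fun n : ℤ => (n : ZMod ℓ)) hq
    push_cast at h5
    rw [ZMod.pow_card, zu, zv] at h5
    linear_combination (-1 : ZMod ℓ) * h5
  have za : (a : ZMod ℓ) ≠ 0 := by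
    rw [Ne, ZMod.intCast_zmod_eq_zero_iff_dvd]
    exact hla
  by_cases hlq : (ℓ : ℤ) ∣ q
  · -- `ℓ = 7`
    have h5 := (ZMod.intCast_zmod_eq_zero_iff_dvd _ ℓ).2 hlq
    rw [zq] at h5
    have h6 : (7 : ZMod ℓ) = 0 := by
      rcases mul_eq_zero.1 h5 with h6 | h6
      · exact h6
      · exact absurd (pow_eq_zero_iff two_ne_zero |>.1 h6) za
    have h7 : ℓ ∣ 7 := by
      rw [← ZMod.natCast_eq_zero_iff]
      exact_mod_cast h6
    have hl7 : ℓ = 7 := (Nat.prime_dvd_prime_iff_eq hp.out (by norm_num)).1 h7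
    rw [hl7] at ha hB h1 hla hlB hlq
    refine no_49 (a := a) (B := B) (v := v) hla hlB ?_ hB
    rw [← ha, h1, hrq]
    obtain ⟨q', hq'⟩ := hlq
    rw [hq']
    exact ⟨7 ^ 5 * (r * q') ^ 7, by push_cast; ring⟩
  · -- the first case for `q` and `- r ^ 2`
    have hcqr : IsCoprime q (-r ^ 2) := hcrq.symm.pow_right.neg_right
    have hsum2 : q ^ ℓ + (-r ^ 2) ^ ℓ = 3 * u * v := by
      rw [hodd.neg_pow, ← pow_mul, mul_comm 2 ℓ, pow_mul, ← hq, ← hr]
      ring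
    have hfq := fermat_mod (ℓ := ℓ) q
    have hfr2 := fermat_mod (ℓ := ℓ) (-r ^ 2)
    have hl3 : ¬ (ℓ : ℤ) ∣ 3 := by
      intro h
      have := Int.le_of_dvd (by norm_num) h
      omega
    have hs2 : ¬ (ℓ : ℤ) ∣ q + (-r ^ 2) := by
      intro h
      have e : 3 * u * v = (q ^ ℓ - q) + ((-r ^ 2) ^ ℓ - (-r ^ 2)) + (q + (-r ^ 2)) := by
        rw [← hsum2]
        ring
      have h5 : (ℓ : ℤ) ∣ 3 * u * v := by
        rw [e]
        exact dvd_add (dvd_add hfq hfr2) h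
      rcases hpZ.dvd_or_dvd h5 with h6 | h6
      · rcases hpZ.dvd_or_dvd h6 with h7 | h7
        · exact hl3 h7
        · exact hlu h7
      · exact hlv h6
    have h32 : (3 : ℤ) ∣ q + (-r ^ 2) := by
      have e : q + (-r ^ 2) = 3 * u * v - (q ^ ℓ - q) - ((-r ^ 2) ^ ℓ - (-r ^ 2)) := by
        rw [← hsum2]
        ring
      rw [e]
      refine dvd_sub (dvd_sub ?_ (three_fermat hodd q)) (three_fermat hodd _)
      exact ⟨u * v, by ring⟩
    obtain ⟨x2, hx2⟩ := cof_pow hp.out hodd hcqr hs2 (k := k + 1) (m := a * m) (Or.inr h32) (by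
      rw [hsum2]
      conv_lhs => rw [hvk, ha]
      ring)
    have hd2 := first_case hζ hℓ5 hcop hcqr hlq (by
      rw [dvd_neg]
      exact fun h => hlr (hpZ.dvd_of_dvd_pow h)) hs2 hx2
    have z2 : (q : ZMod ℓ) + (r : ZMod ℓ) ^ 2 = 0 := by
      have h5 := (ZMod.intCast_zmod_eq_zero_iff_dvd _ ℓ).2 hd2
      push_cast at h5
      linear_combination h5
    have h8 : (8 : ZMod ℓ) * (a : ZMod ℓ) ^ 2 = 0 := by
      linear_combination z2 - zq + ((a : ZMod ℓ) - r) * z1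
    have h9 : (8 : ZMod ℓ) = 0 := by
      rcases mul_eq_zero.1 h8 with h6 | h6
      · exact h6
      · exact absurd (pow_eq_zero_iff two_ne_zero |>.1 h6) za
    have h10 : ℓ ∣ 2 ^ 3 := by
      rw [← ZMod.natCast_eq_zero_iff]
      have e : ((2 ^ 3 : ℕ) : ZMod ℓ) = 8 := by norm_num
      rw [e, h9]
    have h11 := (Nat.prime_dvd_prime_iff_eq hp.out Nat.prime_two).1 (hp.out.dvd_of_dvd_pow h10)
    omega

include hζ in
/-- the integral form -/
theorem arith_int (hℓ5 : 5 ≤ ℓ) (hcop : (classNumber K).Coprime ℓ) {u v w1 w2 : ℤ}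
    (huv : IsCoprime u v) (hw10 : w1 ≠ 0) (hw20 : w2 ≠ 0)
    (hw : IsCoprime w1 w2) (hlw : ¬ (ℓ : ℤ) ∣ w2)
    (h : 3 * u * v ^ 2 * w1 ^ ℓ = (u ^ 3 - v ^ 3) * w2 ^ ℓ) : False := by
  have hodd : Odd ℓ := hp.out.odd_of_ne_two (by omega)
  have hl0 := hp.out.ne_zero
  have h1 : w2 ^ ℓ ∣ 3 * u * v ^ 2 := by
    refine (hw.symm.pow (m := ℓ) (n := ℓ)).dvd_of_dvd_mul_right ?_
    rw [h]
    exact dvd_mul_left _ _
  obtain ⟨c, hc⟩ := h1
  have hc2 : u ^ 3 - v ^ 3 = c * w1 ^ ℓ := by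
    have h2 : w2 ^ ℓ ≠ 0 := pow_ne_zero _ hw20
    apply mul_right_cancel₀ h2
    rw [← h, hc]
    ring
  have hcop3 : IsCoprime (u * v ^ 2) (u ^ 3 - v ^ 3) := by
    have ha : IsCoprime u (u ^ 3 - v ^ 3) := by
      have h3 : IsCoprime u (v ^ 3) := huv.pow_right
      obtain ⟨x, y, hxy⟩ := h3
      exact ⟨x + y * u ^ 2, -y, by linear_combination hxy⟩
    have hb : IsCoprime (v ^ 2) (u ^ 3 - v ^ 3) := by
      have h3 : IsCoprime (v ^ 2) (u ^ 3) := huv.symm.pow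
      obtain ⟨x, y, hxy⟩ := h3
      exact ⟨x + y * v, y, by linear_combination hxy⟩
    exact ha.mul_left hb
  have hc3 : c ∣ 3 := by
    have h3 : IsCoprime c (u * v ^ 2) :=
      (IsCoprime.of_isCoprime_of_dvd_right hcop3 ⟨w1 ^ ℓ, hc2⟩).symm
    refine h3.dvd_of_dvd_mul_right ?_
    exact ⟨w2 ^ ℓ, by linear_combination hc⟩
  obtain ⟨e, c', he, hce, hc'⟩ : ∃ e c' : ℤ, (e = 1 ∨ e = -1) ∧ c = e * c' ∧ (c' = 1 ∨ c' = 3) := by
    have h4 : c.natAbs ∣ 3 := by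
      have := Int.natAbs_dvd_natAbs.2 hc3
      simpa using this
    have h5 := (Nat.dvd_prime Nat.prime_three).1 h4
    rcases h5 with h5 | h5 <;> rcases Int.natAbs_eq c with h6 | h6 <;> rw [h5] at h6
    · exact ⟨1, 1, Or.inl rfl, by rw [h6]; norm_num, Or.inl rfl⟩
    · exact ⟨-1, 1, Or.inr rfl, by rw [h6]; norm_num, Or.inl rfl⟩
    · exact ⟨1, 3, Or.inl rfl, by rw [h6]; norm_num, Or.inr rfl⟩
    · exact ⟨-1, 3, Or.inr rfl, by rw [h6]; norm_num, Or.inr rfl⟩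
  have he0 : e ≠ 0 := by
    rcases he with rfl | rfl <;> norm_num
  have heu : IsUnit e := by
    rcases he with rfl | rfl
    · exact isUnit_one
    · exact isUnit_one.neg
  have hep := pm_one_pow hodd he
  have hW1 : u ^ 3 - v ^ 3 = c' * (e * w1) ^ ℓ := by
    rw [hc2, hce, mul_pow, hep]
    ring
  have hW2 : 3 * u * v ^ 2 = c' * (e * w2) ^ ℓ := by
    rw [hc, hce, mul_pow, hep]
    ring
  have hW10 : e * w1 ≠ 0 := mul_ne_zero he0 hw10
  have hW20 : e * w2 ≠ 0 := mul_ne_zero he0 hw20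
  have hlW : ¬ (ℓ : ℤ) ∣ e * w2 := by
    rwa [(heu.dvd_mul_left)]
  have hWc : IsCoprime (e * w1) (e * w2) :=
    (isCoprime_mul_unit_left heu w1 w2).2 hw
  rcases hc' with rfl | rfl
  · rw [one_mul] at hW1 hW2
    have h5 : (3 : ℤ) ∣ e * w2 := by
      apply Int.prime_three.dvd_of_dvd_pow (n := ℓ)
      rw [← hW2]
      exact ⟨u * v ^ 2, by ring⟩
    have h6 : ¬ (3 : ℤ) ∣ u ^ 3 - v ^ 3 := by
      rw [hW1]
      intro h7
      exact Int.prime_three.not_isUnit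
        (hWc.isUnit_of_dvd' (Int.prime_three.dvd_of_dvd_pow h7) h5)
    have h7 : (3 : ℤ) ∣ u * v ^ 2 := by
      have h8 : (3 : ℤ) ^ ℓ ∣ 3 * (u * v ^ 2) := by
        have e9 : 3 * (u * v ^ 2) = (e * w2) ^ ℓ := by
          rw [← hW2]
          ring
        rw [e9]
        exact pow_dvd_pow_of_dvd h5 ℓ
      have h9 : (3 : ℤ) * 3 ∣ 3 * (u * v ^ 2) := by
        refine dvd_trans ?_ h8
        rw [← pow_two]
        exact pow_dvd_pow _ (by omega)
      exact (mul_dvd_mul_iff_left (by norm_num)).1 h9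
    rcases Int.prime_three.dvd_or_dvd h7 with h8 | h8
    · exact caseB1 hζ hℓ5 hcop huv hW10 hW20 h8 h6 hW1 hW2
    · exact caseB2 hζ hℓ5 hcop huv hW10 hW20 hlW (Int.prime_three.dvd_of_dvd_pow h8) h6 hW1 hW2
  · refine caseA hζ hℓ5 hcop huv hW10 hW20 hW1 ?_
    have : (3 : ℤ) * (u * v ^ 2) = 3 * (e * w2) ^ ℓ := by
      rw [← hW2]
      ring
    exact mul_left_cancel₀ (by norm_num) this

include hζ in
/-- the rational form -/
theorem arith_rat (hℓ5 : 5 ≤ ℓ) (hcop : (classNumber K).Coprime ℓ) {t s : ℚ} (hs : s ≠ 0)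
    (hv : 0 ≤ padicValRat ℓ s) (h : 3 * t * s ^ ℓ = t ^ 3 - 1) : False := by
  have hpZ : Prime (ℓ : ℤ) := Nat.prime_iff_prime_int.1 hp.out
  have htd : (t.den : ℚ) ≠ 0 := by exact_mod_cast t.den_ne_zero
  have hsd : (s.den : ℚ) ≠ 0 := by exact_mod_cast s.den_ne_zero
  have htc : IsCoprime t.num (t.den : ℤ) := by
    rw [Int.isCoprime_iff_nat_coprime]
    exact t.reduced
  have hsc : IsCoprime s.num (s.den : ℤ) := by
    rw [Int.isCoprime_iff_nat_coprime]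
    exact s.reduced
  refine arith_int hζ hℓ5 hcop (u := t.num) (v := t.den) (w1 := s.num) (w2 := s.den) htc
    (Rat.num_ne_zero.2 hs)
    (by exact_mod_cast s.den_ne_zero) hsc ?_ ?_
  · intro hd
    have h1 : padicValInt ℓ s.num = 0 := by
      apply padicValInt.eq_zero_of_not_dvd
      intro h2
      exact hpZ.not_isUnit (hsc.isUnit_of_dvd' h2 hd)
    have h2 : 0 < padicValNat ℓ s.den := by
      have := one_le_padicValNat_of_dvd s.den_ne_zero (Int.natCast_dvd_natCast.1 hd)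
      omega
    rw [padicValRat, h1, Nat.cast_zero] at hv
    omega
  · have h3 : (3 * t.num * (t.den : ℤ) ^ 2 * s.num ^ ℓ : ℚ) =
        ((t.num : ℚ) ^ 3 - (t.den : ℚ) ^ 3) * (s.den : ℚ) ^ ℓ := by
      have h4 := h
      rw [← Rat.num_div_den t, ← Rat.num_div_den s] at h4
      rw [div_pow, div_pow] at h4
      field_simp at h4
      push_cast
      linear_combination h4
    exact_mod_cast h3

end Pool.Agent.K3h44.FQ
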