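import Pool.Agent.K3h44.FQ.Arith
import Pool.Agent.K3h44.FQ.Red

/-!
# Exponents `3 p` over quadratic fields, for regular primes `p`
-/

set_option autoImplicit false
set_option linter.unusedSectionVars false

namespace Pool.Agent.K3h44.FQ

open NumberField

theorem main (F : Type) [Field F] [NumberField F] (hF : Module.finrank ℚ F = 2)
    {p : ℕ} (hp : p.Prime) (h5 : 5 ≤ p) (hreg : ¬ p ∣ classNumber (CyclotomicField p ℚ))
    {x y z : F} (h : x ^ (3 * p) + y ^ (3 * p) = z ^ (3 * p)) : x * y * z = 0 := by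
  have hfp : Fact p.Prime := ⟨hp⟩
  have hcyc : IsCyclotomicExtension {p} ℚ (CyclotomicField p ℚ) := cycQ p
  have hζ := IsCyclotomicExtension.zeta_spec p ℚ (CyclotomicField p ℚ)
  have hcop : (classNumber (CyclotomicField p ℚ)).Coprime p :=
    ((Nat.Prime.coprime_iff_not_dvd hp).2 hreg).symm
  by_contra hne
  have hxy : x * y ≠ 0 := left_ne_zero_of_mul hne
  have hz : z ≠ 0 := right_ne_zero_of_mul hne
  have hx : x ≠ 0 := left_ne_zero_of_mul hxy
  have hy : y ≠ 0 := right_ne_zero_of_mul hxy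
  have h1 : ((x / z) ^ p) ^ 3 + ((y / z) ^ p) ^ 3 = 1 := by
    rw [← pow_mul, ← pow_mul, mul_comm p 3, div_pow, div_pow, ← add_div, h,
      div_self (pow_ne_zero _ hz)]
  obtain ⟨t, s, S, hs, hts, hS⟩ := red hF hp h5 (div_ne_zero hx hz) (div_ne_zero hy hz) h1
  have h2 := ct hζ h5 hcop hS
  rw [padicValRat.pow] at h2
  refine arith_rat hζ h5 hcop hs ?_ hts
  push_cast at h2
  omega

end Pool.Agent.K3h44.FQ
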