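import Pool.Agent.K3h44.FQ.Desc

/-!
# Rational numbers and the first case
-/

set_option autoImplicit false
set_option linter.unusedSectionVars false

namespace Pool.Agent.K3h44.FQ

open NumberField IsDedekindDomain WithZero Polynomial Pool.Agent.Y158.KL

variable {K : Type} [Field K] [NumberField K] {ℓ : ℕ}
  [hp : Fact ℓ.Prime] [hK : IsCyclotomicExtension {ℓ} ℚ K] {ζ : K} (hζ : IsPrimitiveRoot ζ ℓ)

lemma W_int (a : 𝓞 K) : W hζ (algebraMap (𝓞 K) K a) = (lam hζ).intValuation a := by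
  rw [W_eq, cm_int, V_om]

lemma W_intCast_le (n : ℤ) : W hζ (n : K) ≤ 1 := by
  have h := W_int hζ (n : 𝓞 K)
  rw [map_intCast] at h
  rw [h]
  exact HeightOneSpectrum.intValuation_le_one _ _

lemma W_intCast_one {n : ℤ} (h : ¬ (ℓ : ℤ) ∣ n) : W hζ (n : K) = 1 := by
  have h1 := W_int hζ (n : 𝓞 K)
  rw [map_intCast] at h1
  rw [h1, HeightOneSpectrum.intValuation_eq_one_iff]
  change (n : 𝓞 K) ∉ Ideal.span {hζ.toInteger - 1}
  rw [Ideal.mem_span_singleton, pi_dvd_int hζ]
  exact h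

lemma W_ell : W hζ (ℓ : K) = exp (-((ℓ - 1 : ℕ) : ℤ)) := by
  have h1 := W_int hζ (ℓ : 𝓞 K)
  rw [map_natCast] at h1
  rw [h1, lam_ell]

lemma W_natCast {n : ℕ} (hn : n ≠ 0) :
    W hζ (n : K) = exp (-(((ℓ - 1 : ℕ) : ℤ) * padicValNat ℓ n)) := by
  obtain ⟨e, m, hm, h⟩ := Nat.exists_eq_pow_mul_and_not_dvd hn ℓ hp.out.ne_one
  have hm0 : m ≠ 0 := by
    rintro rfl
    exact hm (dvd_zero _)
  have h1 : padicValNat ℓ n = e := by
    rw [h, padicValNat.mul (pow_ne_zero _ hp.out.ne_zero) hm0, padicValNat.prime_pow,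
      padicValNat.eq_zero_of_not_dvd hm, add_zero]
  rw [h1, h]
  push_cast
  rw [map_mul, map_pow, W_ell, exp_pow]
  have h2 : W hζ ((m : ℤ) : K) = 1 := W_intCast_one hζ (by exact_mod_cast hm)
  rw [Int.cast_natCast] at h2
  rw [h2, mul_one]
  congr 1
  ring

/-- the value of a rational number -/
lemma W_rat {q : ℚ} (hq : q ≠ 0) :
    W hζ (q : K) = exp (-(((ℓ - 1 : ℕ) : ℤ) * padicValRat ℓ q)) := by
  have hnum : q.num.natAbs ≠ 0 := by
    rw [Int.natAbs_ne_zero]
    exact Rat.num_ne_zero.2 hq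
  have h1 : W hζ (q.num : K) = W hζ ((q.num.natAbs : ℕ) : K) := by
    rcases Int.natAbs_eq q.num with h | h
    · conv_lhs => rw [h]
      rw [Int.cast_natCast]
    · conv_lhs => rw [h]
      rw [Int.cast_neg, Int.cast_natCast, Valuation.map_neg]
  rw [Rat.cast_def, map_div₀, h1, W_natCast hζ hnum, W_natCast hζ q.den_ne_zero, ← exp_sub]
  congr 1
  rw [padicValRat, padicValInt]
  ring

include hζ in
/-- `x + ζ ^ u y` has an `ℓ`-th power as value at all places, in the first case. -/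
theorem lin_val {x y w : ℤ} (hodd : Odd ℓ) (hxy : IsCoprime x y) (hs : ¬ (ℓ : ℤ) ∣ x + y)
    (h : x ^ ℓ + y ^ ℓ = (x + y) * w ^ ℓ) (u : ℕ) (hu : ζ ^ u ≠ 1) (v : HeightOneSpectrum (𝓞 K)) :
    ∃ t : WithZero (Multiplicative ℤ), v.valuation K ((x : K) + ζ ^ u * y) = t ^ ℓ := by
  classical
  have hℓ := hp.out.pos
  have hinj := FaithfulSMul.algebraMap_injective (𝓞 K) K
  set z := hζ.toInteger with hz
  have hzζ : algebraMap (𝓞 K) K z = ζ := rfl
  have hzu : z ^ u ≠ 1 := by
    intro h1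
    apply hu
    rw [← hzζ, ← map_pow, h1, map_one]
  have hval : v.valuation K ((x : K) + ζ ^ u * y) = v.intValuation ((x : 𝓞 K) + z ^ u * y) := by
    have e : (x : K) + ζ ^ u * y = algebraMap (𝓞 K) K (x + z ^ u * y) := by
      rw [map_add, map_mul, map_pow, map_intCast, map_intCast, hzζ]
    rw [e, v.valuation_of_algebraMap]
  rw [hval]
  by_cases hmem : (x : 𝓞 K) + z ^ u * y ∈ v.asIdeal
  swap
  · refine ⟨1, ?_⟩
    rw [one_pow, HeightOneSpectrum.intValuation_eq_one_iff]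
    exact hmem
  -- the place is not `λ`
  have hvl : v ≠ lam hζ := by
    rintro rfl
    change (x : 𝓞 K) + z ^ u * y ∈ Ideal.span {z - 1} at hmem
    rw [Ideal.mem_span_singleton] at hmem
    apply hs
    rw [← pi_dvd_int hζ]
    have h1 : z - 1 ∣ z ^ u - 1 := by
      have := sub_dvd_pow_sub_pow z 1 u
      rwa [one_pow] at this
    have e : ((x + y : ℤ) : 𝓞 K) = (x + z ^ u * y) - (z ^ u - 1) * y := by
      push_cast
      ring
    rw [e]
    exact dvd_sub hmem (h1.mul_right _)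
  have hy : (y : 𝓞 K) ∉ v.asIdeal := by
    intro hy
    have hx : (x : 𝓞 K) ∈ v.asIdeal := by
      have e : (x : 𝓞 K) = (x + z ^ u * y) - z ^ u * y := by ring
      rw [e]
      exact v.asIdeal.sub_mem hmem (v.asIdeal.mul_mem_left _ hy)
    obtain ⟨a, b, hab⟩ := hxy
    apply v.isPrime.ne_top
    rw [Ideal.eq_top_iff_one]
    have e : (1 : 𝓞 K) = a * x + b * y := by
      have := congrArg (fun n : ℤ => (n : 𝓞 K)) hab
      push_cast at this
      exact this.symm
    rw [e]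
    exact v.asIdeal.add_mem (v.asIdeal.mul_mem_left _ hx) (v.asIdeal.mul_mem_left _ hy)
  have hz' := hζ.toInteger_isPrimitiveRoot
  have hother : ∀ η ∈ nthRootsFinset ℓ (1 : 𝓞 K), η ≠ z ^ u →
      (x : 𝓞 K) + η * y ∉ v.asIdeal := by
    intro η hη hne hmem2
    rw [mem_nthRootsFinset hℓ] at hη
    have : NeZero ℓ := ⟨hℓ.ne'⟩
    obtain ⟨k, -, rfl⟩ := hz'.eq_pow_of_pow_eq_one hη
    have h1 : (z ^ k - z ^ u) * y ∈ v.asIdeal := by
      have e : (z ^ k - z ^ u) * (y : 𝓞 K) = (x + z ^ k * y) - (x + z ^ u * y) := by ring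
      rw [e]
      exact v.asIdeal.sub_mem hmem2 hmem
    rcases v.isPrime.mem_or_mem h1 with h2 | h2
    · have h3 := diff_assoc hζ hne
      have h4 : v.intValuation (z ^ k - z ^ u) = 1 := by
        rw [← lam_assoc h3, other_pi hζ hvl]
      rw [HeightOneSpectrum.intValuation_eq_one_iff] at h4
      exact h4 h2
    · exact hy h2
  have hprod := hz'.pow_add_pow_eq_prod_add_mul (x : 𝓞 K) (y : 𝓞 K) hodd
  have hm1 : (1 : 𝓞 K) ∈ nthRootsFinset ℓ (1 : 𝓞 K) := by
    rw [mem_nthRootsFinset hℓ, one_pow]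
  have hmu : z ^ u ∈ (nthRootsFinset ℓ (1 : 𝓞 K)).erase 1 := by
    rw [Finset.mem_erase, mem_nthRootsFinset hℓ, ← pow_mul, mul_comm, pow_mul, hz'.pow_eq_one,
      one_pow]
    exact ⟨hzu, rfl⟩
  have hh : (x : 𝓞 K) ^ ℓ + (y : 𝓞 K) ^ ℓ = (x + y) * (w : 𝓞 K) ^ ℓ := by exact_mod_cast h
  rw [hh, ← Finset.mul_prod_erase _ _ hm1, ← Finset.mul_prod_erase _ _ hmu, one_mul] at hprod
  have hxy0 : (x : 𝓞 K) + y ≠ 0 := by
    intro h0
    apply hs
    have : x + y = 0 := by exact_mod_cast h0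
    rw [this]
    exact dvd_zero _
  have h2 := mul_left_cancel₀ hxy0 hprod
  have h3 := congrArg v.intValuation h2
  rw [map_pow, map_mul, map_prod] at h3
  refine ⟨v.intValuation w, ?_⟩
  rw [h3, Finset.prod_eq_one, mul_one]
  intro η hη
  rw [Finset.mem_erase, Finset.mem_erase] at hη
  rw [HeightOneSpectrum.intValuation_eq_one_iff]
  exact hother η hη.2.2 hη.1

include hζ in
/-- The first case: `x ≡ y` modulo `ℓ`. -/
theorem first_case (hℓ5 : 5 ≤ ℓ) (hcop : (classNumber K).Coprime ℓ) {x y w : ℤ}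
    (hxy : IsCoprime x y) (hx : ¬ (ℓ : ℤ) ∣ x) (hy : ¬ (ℓ : ℤ) ∣ y) (hs : ¬ (ℓ : ℤ) ∣ x + y)
    (h : x ^ ℓ + y ^ ℓ = (x + y) * w ^ ℓ) : (ℓ : ℤ) ∣ x - y := by
  have hℓ := hp.out.pos
  have hodd : Odd ℓ := hp.out.odd_of_ne_two (by omega)
  have hpZ : Prime (ℓ : ℤ) := Nat.prime_iff_prime_int.1 hp.out
  have hinj := FaithfulSMul.algebraMap_injective (𝓞 K) K
  obtain ⟨y', a, hy'⟩ : IsCoprime y (ℓ : ℤ) := (hpZ.coprime_iff_not_dvd.2 hy).symm
  -- `y' * y + a * ℓ = 1`
  have hξ1 : ¬ (ℓ : ℤ) ∣ x * y' + 1 := by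
    intro h1
    apply hs
    have e : x + y = (x * y' + 1) * y + a * ℓ * x := by linear_combination (-x) * hy'
    rw [e]
    exact dvd_add (h1.mul_right _) ⟨a * x, by ring⟩
  have hξ : ¬ (ℓ : ℤ) ∣ x * y' := by
    intro h1
    rcases hpZ.dvd_or_dvd h1 with h2 | h2
    · exact hx h2
    · have h3 : (ℓ : ℤ) ∣ 1 := by
        rw [← hy']
        exact dvd_add (h2.mul_right _) ⟨a, by ring⟩
      exact hpZ.not_isUnit (isUnit_of_dvd_one h3)
  obtain ⟨c, b, hc⟩ : IsCoprime (x * y' + 1) (ℓ : ℤ) := (hpZ.coprime_iff_not_dvd.2 hξ1).symm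
  set z := hζ.toInteger with hz
  have hzζ : algebraMap (𝓞 K) K z = ζ := rfl
  have hell4 : (z - 1) ^ 4 ∣ (ℓ : 𝓞 K) :=
    (pow_dvd_pow _ (show 4 ≤ ℓ - 1 by omega)).trans
      (IsCyclotomicExtension.Rat.associated_zeta_sub_one_pow_prime ℓ hζ).dvd
  have hmain := glob1 hζ hℓ5 (ξ := ((x * y' : ℤ) : 𝓞 K)) (by rwa [pi_dvd_int hζ])
    (by
      have e0 : (((x * y' : ℤ) : 𝓞 K) + 1) = ((x * y' + 1 : ℤ) : 𝓞 K) := by push_cast; ring
      rw [e0, pi_dvd_int hζ]
      exact hξ1) (by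
    intro u
    rw [← hz]
    by_cases hu : ζ ^ u = 1
    · have hzu : z ^ u = 1 := by
        apply hinj
        rw [map_pow, hzζ, hu, map_one]
      refine ⟨1, 1, ?_⟩
      rw [hzu]
      simp
    · have hne : (x : K) + ζ ^ u * y ≠ 0 := by
        intro h0
        have h1 : (x : 𝓞 K) + z ^ u * y = 0 := by
          apply hinj
          rw [map_zero, map_add, map_mul, map_pow, map_intCast, map_intCast, hzζ]
          exact h0
        apply hs
        rw [← pi_dvd_int hζ]
        have h2 : z - 1 ∣ z ^ u - 1 := by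
          have := sub_dvd_pow_sub_pow z 1 u
          rwa [one_pow] at this
        have e : ((x + y : ℤ) : 𝓞 K) = (x + z ^ u * y) - (z ^ u - 1) * y := by
          push_cast
          ring
        rw [e, h1, zero_sub, dvd_neg]
        exact h2.mul_right _
      obtain ⟨u₁, g, hg, hu₁⟩ := exists_unit_mul_pow hℓ hcop _ hne
        (lin_val hζ hodd hxy hs h u hu)
      have hWg : W hζ g = 1 := by
        have h1 : W hζ ((x : K) + ζ ^ u * y) = 1 := by
          have e : (x : K) + ζ ^ u * y = algebraMap (𝓞 K) K (x + z ^ u * y) := by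
            rw [map_add, map_mul, map_pow, map_intCast, map_intCast, hzζ]
          rw [e, W_int, HeightOneSpectrum.intValuation_eq_one_iff]
          change (x : 𝓞 K) + z ^ u * y ∉ Ideal.span {z - 1}
          rw [Ideal.mem_span_singleton]
          intro hd
          apply hs
          rw [← pi_dvd_int hζ]
          have h2 : z - 1 ∣ z ^ u - 1 := by
            have := sub_dvd_pow_sub_pow z 1 u
            rwa [one_pow] at this
          have e : ((x + y : ℤ) : 𝓞 K) = (x + z ^ u * y) - (z ^ u - 1) * y := by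
            push_cast
            ring
          rw [e]
          exact dvd_sub hd (h2.mul_right _)
        rw [hu₁, map_mul, W_eq hζ (algebraMap (𝓞 K) K u₁), cm_int, V_unit, one_mul, map_pow] at h1
        exact (pow_eq_one_iff_of_nonneg zero_le hℓ.ne').1 h1
      obtain ⟨n, hn⟩ := pow_near hζ (w := cm hζ g) (by rw [← W_eq, hWg])
      refine ⟨u₁, y' * n * c, ?_⟩
      -- work modulo `ℓ`
      refine hell4.trans ?_
      apply ell_dvd_of hζ
      rw [← V_om]
      have e1 : om hζ ((x : 𝓞 K) + z ^ u * y) = om hζ u₁ * (cm hζ g) ^ ℓ := by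
        have h1 := congrArg (cm hζ) hu₁
        rw [map_mul, map_pow, cm_int] at h1
        rw [← h1]
        have e : (x : K) + ζ ^ u * y = algebraMap (𝓞 K) K (x + z ^ u * y) := by
          rw [map_add, map_mul, map_pow, map_intCast, map_intCast, hzζ]
        rw [e, cm_int]
      have e2 : om hζ (((x * y' : ℤ) : 𝓞 K) + z ^ u -
          u₁ * ((y' * n * c : ℤ) : 𝓞 K) * (((x * y' : ℤ) : 𝓞 K) + 1)) =
          om hζ u₁ * y' * ((cm hζ g) ^ ℓ - n) + ℓ * (om hζ (z ^ u) * a +
            om hζ u₁ * y' * n * b) := by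
        have hy2 : (y' : Kl hζ) * y + a * ℓ = 1 := by
          have h9 := congrArg (fun n : ℤ => (n : Kl hζ)) hy'
          push_cast at h9
          exact h9
        have hc2 : (c : Kl hζ) * (x * y' + 1) + b * ℓ = 1 := by
          have h9 := congrArg (fun n : ℤ => (n : Kl hζ)) hc
          push_cast at h9
          exact h9
        have e3 : om hζ (((x * y' : ℤ) : 𝓞 K) + z ^ u -
          u₁ * ((y' * n * c : ℤ) : 𝓞 K) * (((x * y' : ℤ) : 𝓞 K) + 1)) =
          (x * y' + om hζ (z ^ u)) - om hζ u₁ * (y' * n * c) * (x * y' + 1) := by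
          simp only [map_sub, map_add, map_mul, map_intCast, map_one, Int.cast_mul]
        have e4 : (x : Kl hζ) + om hζ (z ^ u) * y = om hζ u₁ * (cm hζ g) ^ ℓ := by
          rw [← e1]
          simp only [map_add, map_mul, map_intCast]
        rw [e3]
        linear_combination (y' : Kl hζ) * e4 - om hζ (z ^ u) * hy2 -
          om hζ u₁ * y' * n * hc2
      rw [e2]
      refine Valuation.map_add_le _ ?_ ?_
      · rw [map_mul, map_mul, V_unit, one_mul]
        exact le_trans (mul_le_of_le_one_left zero_le (V_intCast hζ y')) hn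
      · rw [map_mul, V_ell]
        refine mul_le_of_le_one_right zero_le ?_
        refine Valuation.map_add_le _ ?_ ?_
        · rw [map_mul, V_om]
          exact mul_le_one' (HeightOneSpectrum.intValuation_le_one _ _) (V_intCast hζ a)
        · rw [map_mul, map_mul, map_mul, V_unit, one_mul]
          exact mul_le_one' (mul_le_one' (V_intCast hζ y') (V_intCast hζ n)) (V_intCast hζ b))
  have e0 : (((x * y' : ℤ) : 𝓞 K) - 1) = ((x * y' - 1 : ℤ) : 𝓞 K) := by push_cast; ring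
  rw [e0, pi_dvd_int hζ] at hmain
  have e : x - y = (x * y' - 1) * y + a * ℓ * x := by linear_combination (-x) * hy'
  rw [e]
  exact dvd_add (hmain.mul_right _) ⟨a * x, by ring⟩

end Pool.Agent.K3h44.FQ
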