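import Pool.Agent.K3h44.FQ.Luc
import Pool.Agent.K3h44.FQ.Rat

/-!
# Pairs with rational sum and product
-/

set_option autoImplicit false
set_option linter.unusedSectionVars false

namespace Pool.Agent.K3h44.FQ

open NumberField IsDedekindDomain WithZero Polynomial Pool.Agent.Y158.KL

variable {K : Type} [Field K] [NumberField K] {ℓ : ℕ}
  [hp : Fact ℓ.Prime] [hK : IsCyclotomicExtension {ℓ} ℚ K] {ζ : K} (hζ : IsPrimitiveRoot ζ ℓ)

lemma W_zeta : W hζ ζ = 1 := by rw [W_eq, om_zeta, V_zm]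

lemma W_diff {i j : ℕ} (h : ζ ^ i ≠ ζ ^ j) : W hζ (ζ ^ i - ζ ^ j) = exp (-1) := by
  rw [W_eq, map_sub, map_pow, map_pow, om_zeta]
  apply V_diff
  intro h1
  apply h
  have h2 : cm hζ (ζ ^ i) = cm hζ (ζ ^ j) := by
    rw [map_pow, map_pow, om_zeta, h1]
  exact (cm hζ).injective h2

lemma mu_eq {F : Type*} [Field F] {η : F} (h : η ≠ 0) : 2 - η - η⁻¹ = -((η - 1) ^ 2 / η) := by
  field_simp
  ring

lemma W_mu {η : K} (h1 : η ^ ℓ = 1) (h2 : η ≠ 1) : W hζ (2 - η - η⁻¹) = exp (-2) := by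
  have : NeZero ℓ := ⟨hp.out.ne_zero⟩
  obtain ⟨i, -, rfl⟩ := hζ.eq_pow_of_pow_eq_one h1
  have h3 : ζ ^ i ≠ 0 := pow_ne_zero _ (hζ.ne_zero hp.out.ne_zero)
  have h4 := W_diff hζ (i := i) (j := 0) (by rwa [pow_zero])
  rw [pow_zero] at h4
  rw [mu_eq h3, Valuation.map_neg, map_div₀, map_pow, h4, map_pow, W_zeta, one_pow, div_one,
    exp_pow]
  norm_num

/-- the valuations of the factors at the prime above `ℓ` -/
theorem W_fac (hℓ5 : 5 ≤ ℓ) {S N : ℚ} (hL : luc S N ℓ = 1) (hN : padicValRat ℓ N < 0) :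
    ∃ M σ : ℤ, 4 ≤ M ∧ W hζ (N : K) = exp M ∧ W hζ (S : K) = exp σ ∧ S ≠ 0 ∧
      2 * σ + (ℓ - 1) * (M - 2) = 0 ∧
      ∀ η : K, η ^ ℓ = 1 → η ≠ 1 → W hζ ((S : K) ^ 2 - (2 - η - η⁻¹) * N) = exp (M - 2) := by
  classical
  have hℓ := hp.out.pos
  have hodd : Odd ℓ := hp.out.odd_of_ne_two (by omega)
  have hLK : luc (S : K) (N : K) ℓ = 1 := by
    have h1 := luc_map (algebraMap ℚ K) S N ℓ
    rw [hL, map_one] at h1
    simpa using h1
  have hprod := prod_D hℓ hodd hζ hLK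
  have hmem1 : (1 : K) ∈ nthRootsFinset ℓ (1 : K) := by
    rw [mem_nthRootsFinset hℓ, one_pow]
  have hD1 : (S : K) ^ 2 - (2 - (1 : K) - (1 : K)⁻¹) * N = (S : K) ^ 2 := by
    rw [inv_one]
    ring
  have hS0 : S ≠ 0 := by
    rintro rfl
    have h1 := Finset.prod_eq_zero
      (f := fun η : K => ((0 : ℚ) : K) ^ 2 - (2 - η - η⁻¹) * N) hmem1 (by
        change ((0 : ℚ) : K) ^ 2 - (2 - (1 : K) - (1 : K)⁻¹) * N = 0
        rw [hD1, Rat.cast_zero, zero_pow two_ne_zero])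
    rw [hprod] at h1
    exact one_ne_zero h1
  have hN0 : N ≠ 0 := by
    rintro rfl
    rw [padicValRat.zero] at hN
    exact lt_irrefl _ hN
  have hl1 : ((ℓ - 1 : ℕ) : ℤ) = (ℓ : ℤ) - 1 := by omega
  obtain ⟨m, hm⟩ : ∃ m : ℤ, padicValRat ℓ N = -m := ⟨-padicValRat ℓ N, by ring⟩
  set s := padicValRat ℓ S with hs
  set M : ℤ := (ℓ - 1) * m with hM
  set σ : ℤ := -((ℓ - 1) * s) with hσ
  have hWN : W hζ (N : K) = exp M := by
    rw [W_rat hζ hN0, hm, hM, hl1]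
    congr 1
    ring
  have hWS : W hζ (S : K) = exp σ := by
    rw [W_rat hζ hS0, hσ, hl1]
  have hM4 : 4 ≤ M := by
    have h1 : 1 ≤ m := by omega
    have h2 : (4 : ℤ) ≤ ℓ - 1 := by omega
    rw [hM]
    nlinarith
  have hvp := congrArg (W hζ) hprod
  rw [map_prod, map_one] at hvp
  have hmuN : ∀ η : K, η ^ ℓ = 1 → η ≠ 1 → W hζ ((2 - η - η⁻¹) * N) = exp (M - 2) := by
    intro η h1 h2
    rw [map_mul, W_mu hζ h1 h2, hWN, ← exp_add]
    congr 1
    ring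
  have hS2 : W hζ ((S : K) ^ 2) = exp (2 * σ) := by
    rw [map_pow, hWS, exp_pow]
    congr 1
  rcases lt_trichotomy (2 * σ) (M - 2) with hlt | heq | hgt
  · have h1 : ∀ η : K, η ^ ℓ = 1 → η ≠ 1 →
        W hζ ((S : K) ^ 2 - (2 - η - η⁻¹) * N) = exp (M - 2) := by
      intro η h1 h2
      rw [Valuation.map_sub_eq_of_lt_right, hmuN η h1 h2]
      rw [hmuN η h1 h2, hS2, exp_lt_exp]
      exact hlt
    refine ⟨M, σ, hM4, hWN, hWS, hS0, ?_, h1⟩
    rw [← Finset.mul_prod_erase _ _ hmem1, Finset.prod_congr rfl (g := fun _ => exp (M - 2)) (by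
        intro η' hη'
        rw [Finset.mem_erase, mem_nthRootsFinset hℓ] at hη'
        exact h1 η' hη'.2 hη'.1), Finset.prod_const,
      Finset.card_erase_of_mem hmem1, hζ.card_nthRootsFinset, hD1, hS2, exp_pow, ← exp_add,
      ← exp_zero, exp_inj, hl1] at hvp
    linarith
  · exfalso
    have h1 : ((ℓ : ℤ) - 1) ∣ 2 := by
      refine ⟨m + 2 * s, ?_⟩
      rw [hM, hσ] at heq
      linear_combination heq
    have := Int.le_of_dvd (by norm_num) h1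
    omega
  · exfalso
    rw [Finset.prod_congr rfl (g := fun _ => exp (2 * σ)) (by
        intro η' hη'
        rw [mem_nthRootsFinset hℓ] at hη'
        by_cases h2 : η' = 1
        · rw [h2, hD1, hS2]
        · rw [Valuation.map_sub_eq_of_lt_left, hS2]
          rw [hmuN η' hη' h2, hS2, exp_lt_exp]
          exact hgt), Finset.prod_const, hζ.card_nthRootsFinset, exp_pow,
      ← exp_zero, exp_inj] at hvp
    have h3 : (ℓ : ℤ) ≠ 0 := by omega
    rcases mul_eq_zero.1 hvp with h4 | h4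
    · first | exact h3 h4 | omega
    · first | exact h3 h4 | omega

include hζ in
/-- **Pairs with rational sum and product.** For a regular prime `ℓ ≥ 5`: if
`g ^ ℓ + h ^ ℓ = 1`, where `g + h = S` and `g * h = N` are rational, then `ℓ` does not divide
the denominator of `N`. -/
theorem ct (hℓ5 : 5 ≤ ℓ) (hcop : (classNumber K).Coprime ℓ) {S N : ℚ} (hL : luc S N ℓ = 1) :
    0 ≤ padicValRat ℓ N := by
  classical
  by_contra hcon
  push Not at hcon
  have hℓ := hp.out.pos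
  have hne : NeZero ℓ := ⟨hp.out.ne_zero⟩
  have hodd : Odd ℓ := hp.out.odd_of_ne_two (by omega)
  have hinj := FaithfulSMul.algebraMap_injective (𝓞 K) K
  have hLK : luc (S : K) (N : K) ℓ = 1 := by
    have h1 := luc_map (algebraMap ℚ K) S N ℓ
    rw [hL, map_one] at h1
    simpa using h1
  have hprod := prod_D hℓ hodd hζ hLK
  obtain ⟨M, σ, hM4, hWN, hWS, hS0, hsum, hWD⟩ := W_fac hζ hℓ5 hL hcon
  have hSK : (S : K) ≠ 0 := by exact_mod_cast hS0
  have hz0 : ζ ≠ 0 := hζ.ne_zero hp.out.ne_zero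
  have hζ1 : ζ ≠ 1 := hζ.ne_one hp.out.one_lt
  have hpow : ∀ k : ℕ, 0 < k → k < ℓ → ζ ^ k ≠ 1 := by
    intro k h0 h1 h2
    have h3 := hζ.dvd_of_pow_eq_one _ h2
    exact absurd (Nat.le_of_dvd h0 h3) (by omega)
  have hpl : ∀ k : ℕ, (ζ ^ k) ^ ℓ = 1 := by
    intro k
    rw [← pow_mul, mul_comm, pow_mul, hζ.pow_eq_one, one_pow]
  have hDne : ∀ η : K, η ^ ℓ = 1 → (S : K) ^ 2 - (2 - η - η⁻¹) * N ≠ 0 := by
    intro η hη h0
    have h1 := Finset.prod_eq_zero (f := fun η : K => (S : K) ^ 2 - (2 - η - η⁻¹) * N)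
      ((mem_nthRootsFinset hℓ _).2 hη) h0
    rw [hprod] at h1
    exact one_ne_zero h1
  set m1 : K := 2 - ζ - ζ⁻¹ with hm1
  set m2 : K := 2 - ζ ^ 2 - (ζ ^ 2)⁻¹ with hm2
  set D1 : K := (S : K) ^ 2 - m1 * N with hD1
  set D2 : K := (S : K) ^ 2 - m2 * N with hD2
  have hD10 : D1 ≠ 0 := hDne ζ hζ.pow_eq_one
  have hD20 : D2 ≠ 0 := hDne (ζ ^ 2) (hpl 2)
  have hm21 : m2 - m1 = (ζ - ζ ^ 2) * (ζ ^ 3 - 1) / ζ ^ 3 := by
    rw [hm1, hm2]
    field_simp
    ring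
  have hm1W : W hζ m1 = exp (-2) := W_mu hζ hζ.pow_eq_one hζ1
  have hm2W : W hζ m2 = exp (-2) := W_mu hζ (hpl 2) (hpow 2 (by omega) (by omega))
  have hm10 : m1 ≠ 0 := by
    intro h0
    rw [h0, map_zero] at hm1W
    exact exp_ne_zero hm1W.symm
  have hm20 : m2 ≠ 0 := by
    intro h0
    rw [h0, map_zero] at hm2W
    exact exp_ne_zero hm2W.symm
  have h12 : ζ ^ 1 ≠ ζ ^ 2 := by
    intro h1
    rw [pow_one, pow_two] at h1
    have h2 := mul_left_cancel₀ hz0 ((mul_one ζ).trans h1)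
    exact hζ1 h2.symm
  have hm21W : W hζ (m2 - m1) = exp (-2) := by
    have h1 := W_diff hζ h12
    rw [pow_one] at h1
    have h2 := W_diff hζ (i := 3) (j := 0) (by
      rw [pow_zero]
      exact hpow 3 (by omega) (by omega))
    rw [pow_zero] at h2
    rw [hm21, map_div₀, map_mul, h1, h2, map_pow, W_zeta, one_pow, div_one, ← exp_add]
    norm_num
  have hm210 : m2 - m1 ≠ 0 := by
    intro h0
    rw [h0, map_zero] at hm21W
    exact exp_ne_zero hm21W.symm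
  set w1 : K := m2 * D1 / (m1 * D2) with hw1
  set w2 : K := (m2 - m1) * (S : K) ^ 2 / (m1 * D2) with hw2
  have hw12 : w1 = 1 + w2 := by
    rw [hw1, hw2, eq_comm, ← sub_eq_zero]
    field_simp
    rw [hD1, hD2]
    ring
  have hw10 : w1 ≠ 0 := div_ne_zero (mul_ne_zero hm20 hD10) (mul_ne_zero hm10 hD20)
  have hw20 : w2 ≠ 0 :=
    div_ne_zero (mul_ne_zero hm210 (pow_ne_zero _ hSK)) (mul_ne_zero hm10 hD20)
  have hWD1 : W hζ D1 = exp (M - 2) := hWD ζ hζ.pow_eq_one hζ1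
  have hWD2 : W hζ D2 = exp (M - 2) := hWD (ζ ^ 2) (hpl 2) (hpow 2 (by omega) (by omega))
  have hWw1 : W hζ w1 = 1 := by
    rw [hw1, map_div₀, map_mul, map_mul, hm1W, hm2W, hWD1, hWD2]
    exact div_self (mul_ne_zero exp_ne_zero exp_ne_zero)
  have hWw2 : W hζ w2 = exp (-(ℓ * (M - 2))) := by
    rw [hw2, map_div₀, map_mul, map_mul, hm1W, hm21W, hWD2, map_pow, hWS, exp_pow, ← exp_add,
      ← exp_add, ← exp_sub]
    congr 1
    push_cast
    linear_combination hsum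
  -- the values at the other places
  have hoth : ∀ v : HeightOneSpectrum (𝓞 K), v ≠ lam hζ →
      (∃ t, v.valuation K w1 = t ^ ℓ) ∧ ∃ t, v.valuation K w2 = t ^ ℓ := by
    intro v hv
    have hη1 : ∀ η : K, η ^ ℓ = 1 → η ≠ 1 → v.valuation K (η - 1) = 1 := by
      intro η h1 h2
      obtain ⟨i, -, rfl⟩ := hζ.eq_pow_of_pow_eq_one h1
      have hzζ : algebraMap (𝓞 K) K hζ.toInteger = ζ := rfl
      have h3 : hζ.toInteger ^ i ≠ hζ.toInteger ^ 0 := by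
        intro h4
        apply h2
        rw [← hzζ, ← map_pow, h4, pow_zero, map_one]
      have h5 := diff_assoc hζ h3
      rw [pow_zero] at h5
      rw [← hzζ, ← map_pow, ← map_one (algebraMap (𝓞 K) K), ← map_sub,
        v.valuation_of_algebraMap, ← lam_assoc h5, other_pi hζ hv]
    have hv1 : ∀ η : K, η ^ ℓ = 1 → v.valuation K η = 1 := by
      intro η hη
      have h1 : v.valuation K η ^ ℓ = 1 := by rw [← map_pow, hη, map_one]
      exact (pow_eq_one_iff_of_nonneg zero_le hℓ.ne').1 h1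
    have hmu : ∀ η : K, η ^ ℓ = 1 → η ≠ 1 → v.valuation K (2 - η - η⁻¹) = 1 := by
      intro η h1 h2
      have h3 : η ≠ 0 := by
        rintro rfl
        rw [zero_pow hℓ.ne'] at h1
        exact zero_ne_one h1
      rw [mu_eq h3, Valuation.map_neg, map_div₀, map_pow, hη1 η h1 h2, hv1 η h1]
      simp
    obtain ⟨t1, ht1⟩ := val_D (v.valuation K) hℓ hodd hη1 hprod hζ ζ hζ.pow_eq_one
    obtain ⟨t2, ht2⟩ := val_D (v.valuation K) hℓ hodd hη1 hprod hζ (ζ ^ 2) (hpl 2)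
    have hvm1 : v.valuation K m1 = 1 := hmu ζ hζ.pow_eq_one hζ1
    have hvm2 : v.valuation K m2 = 1 := hmu (ζ ^ 2) (hpl 2) (hpow 2 (by omega) (by omega))
    have hvm21 : v.valuation K (m2 - m1) = 1 := by
      have e : ζ - ζ ^ 2 = -(ζ * (ζ - 1)) := by ring
      rw [hm21, map_div₀, map_mul, e, Valuation.map_neg, map_mul, hv1 ζ hζ.pow_eq_one,
        hη1 ζ hζ.pow_eq_one hζ1, hη1 (ζ ^ 3) (hpl 3) (hpow 3 (by omega) (by omega)),
        hv1 (ζ ^ 3) (hpl 3)]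
      simp
    have hvS : v.valuation K (S : K) ≠ 0 := (Valuation.ne_zero_iff _).2 hSK
    have ht20 : t2 ≠ 0 := by
      rintro rfl
      rw [zero_pow hℓ.ne', mul_zero] at ht2
      exact (Valuation.ne_zero_iff _).2 hD20 ht2
    constructor
    · refine ⟨t1 / t2, ?_⟩
      rw [hw1, map_div₀, map_mul, map_mul, hvm1, hvm2, one_mul, one_mul]
      change v.valuation K ((S : K) ^ 2 - m1 * N) / v.valuation K ((S : K) ^ 2 - m2 * N) = _
      rw [ht1, ht2, div_pow]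
      field_simp
    · refine ⟨1 / t2, ?_⟩
      rw [hw2, map_div₀, map_mul, map_mul, hvm1, hvm21, one_mul, one_mul, map_pow]
      change _ / v.valuation K ((S : K) ^ 2 - m2 * N) = _
      rw [ht2, div_pow, one_pow]
      field_simp
  obtain ⟨ε₁, ρ, hρ0, hρ⟩ := exists_unit_mul_pow hℓ hcop w1 hw10 (by
    intro v
    by_cases hv : v = lam hζ
    · subst hv
      exact ⟨1, by rw [one_pow]; exact hWw1⟩
    · exact (hoth v hv).1)
  obtain ⟨ε₂, z, hz, hzz⟩ := exists_unit_mul_pow hℓ hcop w2 hw20 (by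
    intro v
    by_cases hv : v = lam hζ
    · subst hv
      refine ⟨exp (-(M - 2)), ?_⟩
      have h1 : (lam hζ).valuation K w2 = exp (-(ℓ * (M - 2))) := hWw2
      rw [h1, exp_pow]
      congr 1
      ring
    · exact (hoth v hv).2)
  have hWu : ∀ u : (𝓞 K)ˣ, W hζ (algebraMap (𝓞 K) K u) = 1 := by
    intro u
    rw [W_eq, cm_int, V_unit]
  have hWρ : W hζ ρ = 1 := by
    have h1 := hWw1
    rw [hρ, map_mul, hWu, one_mul, map_pow] at h1
    exact (pow_eq_one_iff_of_nonneg zero_le hℓ.ne').1 h1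
  have hWz : W hζ z < 1 := by
    have h1 := hWw2
    rw [hzz, map_mul, hWu, one_mul, map_pow] at h1
    by_contra h2
    have h3 : 1 ≤ W hζ z ^ ℓ := one_le_pow₀ (not_lt.1 h2)
    rw [h1, ← exp_zero, exp_le_exp] at h3
    nlinarith
  obtain ⟨n, hn⟩ := pow_near hζ (w := cm hζ ρ) (by rw [← W_eq, hWρ])
  obtain ⟨η, hη⟩ := kummer_lemma hζ (by omega : 2 < ℓ) hcop ε₁⁻¹ n (by
    have h1 : (ℓ : 𝓞 K) ∣ ε₁ * n - 1 := by
      apply ell_dvd_of hζ
      rw [← V_om]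
      have h2 : om hζ ε₁ * (cm hζ ρ) ^ ℓ = 1 + cm hζ w2 := by
        have h3 := congrArg (cm hζ) (hρ.symm.trans hw12)
        rw [map_mul, map_pow, map_add, map_one, cm_int] at h3
        exact h3
      have e : om hζ ((ε₁ : 𝓞 K) * n - 1) = cm hζ w2 - om hζ ε₁ * ((cm hζ ρ) ^ ℓ - n) := by
        rw [map_sub, map_mul, map_intCast, map_one]
        linear_combination h2
      rw [e]
      refine Valuation.map_sub_le _ ?_ ?_
      · rw [← W_eq, hWw2, exp_le_exp]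
        have h5 : ((ℓ - 1 : ℕ) : ℤ) = ℓ - 1 := by omega
        rw [h5]
        nlinarith
      · rw [map_mul, V_unit, one_mul]
        exact hn
    obtain ⟨t, ht⟩ := h1
    refine ⟨-t * ((ε₁⁻¹ : (𝓞 K)ˣ) : 𝓞 K), ?_⟩
    have h1 : ((ε₁ : (𝓞 K)ˣ) : 𝓞 K) * ((ε₁⁻¹ : (𝓞 K)ˣ) : 𝓞 K) = 1 := Units.mul_inv ε₁
    linear_combination (-((ε₁⁻¹ : (𝓞 K)ˣ) : 𝓞 K)) * ht + (n : 𝓞 K) * h1)
  have hη0 : algebraMap (𝓞 K) K η ≠ 0 := (map_ne_zero_iff _ hinj).2 η.ne_zero
  have hη2 : algebraMap (𝓞 K) K ε₁ * algebraMap (𝓞 K) K η ^ ℓ = 1 := by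
    rw [← map_pow, ← map_mul, ← map_one (algebraMap (𝓞 K) K)]
    congr 1
    have h1 := congrArg (fun w : (𝓞 K)ˣ => (w : 𝓞 K)) hη
    have h2 : ((ε₁ : (𝓞 K)ˣ) : 𝓞 K) * ((ε₁⁻¹ : (𝓞 K)ˣ) : 𝓞 K) = 1 := Units.mul_inv ε₁
    push_cast at h1
    rw [← h1]
    exact h2
  refine case2' hζ hodd hcop (x := -(ρ / algebraMap (𝓞 K) K η)) (z := z) (ε := -ε₂) hz ?_ hWz
  have h3 : (ρ / algebraMap (𝓞 K) K η) ^ ℓ = w1 := by
    rw [div_pow, div_eq_iff (pow_ne_zero _ hη0), hρ]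
    linear_combination (-(ρ ^ ℓ)) * hη2
  rw [hodd.neg_pow, h3, Units.val_neg, map_neg]
  linear_combination (-1 : K) * hw12 - hzz

end Pool.Agent.K3h44.FQ
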