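import Pool.Agent.Y158.KL.Lam
import Pool.Agent.Y158.KL.Loc

/-!
# Local lemmas at the prime above `ℓ` (adapted from `Pool.Agent.Y158.KL.Case2`, `Case2b`)
-/

set_option autoImplicit false
set_option linter.unusedSectionVars false

namespace Pool.Agent.K3h44.FQ

open NumberField IsDedekindDomain WithZero Polynomial Pool.Agent.Y158.KL

lemma ne_of_pow {L : Type*} [Field L] {ℓ : ℕ} (hodd : Odd ℓ) {ζ : L} (hζ : IsPrimitiveRoot ζ ℓ)
    {x z ε : L} (hε : ε ≠ 0) (hz : z ≠ 0) (h : x ^ ℓ + 1 = ε * z ^ ℓ) (k : ℕ) :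
    x + ζ ^ k ≠ 0 := by
  intro hk
  have h1 : x = -ζ ^ k := eq_neg_of_add_eq_zero_left hk
  have h2 : ε * z ^ ℓ = 0 := by
    rw [← h, h1, Odd.neg_pow hodd, ← pow_mul, mul_comm, pow_mul, hζ.pow_eq_one, one_pow]
    ring
  exact mul_ne_zero hε (pow_ne_zero _ hz) h2

variable {K : Type} [Field K] [NumberField K] {ℓ : ℕ}
  [hp : Fact ℓ.Prime] [hK : IsCyclotomicExtension {ℓ} ℚ K] {ζ : K} (hζ : IsPrimitiveRoot ζ ℓ)

/-- the integers of `K` in the completion -/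
noncomputable def om : 𝓞 K →+* Kl hζ := (cm hζ).comp (algebraMap (𝓞 K) K)

lemma V_om (a : 𝓞 K) : V hζ (om hζ a) = (lam hζ).intValuation a := V_int hζ a

lemma om_inj : Function.Injective (om hζ) := by
  intro a b h
  exact FaithfulSMul.algebraMap_injective (𝓞 K) K ((cm hζ).injective h)

lemma om_ne {a : 𝓞 K} (h : a ≠ 0) : om hζ a ≠ 0 := (map_ne_zero_iff _ (om_inj hζ)).2 h

lemma V_unit (u : (𝓞 K)ˣ) : V hζ (om hζ u) = 1 := by rw [V_om, val_unit]

lemma V_pi : V hζ (om hζ (hζ.toInteger - 1)) = exp (-1) := by rw [V_om, lam_pi]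

/-- the root of unity in the completion -/
noncomputable def zm : Kl hζ := om hζ hζ.toInteger

lemma zm_prim : IsPrimitiveRoot (zm hζ) ℓ :=
  hζ.toInteger_isPrimitiveRoot.map_of_injective (om_inj hζ)

lemma V_zm : V hζ (zm hζ) = 1 := by
  have h1 : V hζ (zm hζ) ^ ℓ = 1 := by rw [← map_pow, (zm_prim hζ).pow_eq_one, map_one]
  exact (pow_eq_one_iff_of_nonneg zero_le hp.out.pos.ne').1 h1

lemma V_diff {i j : ℕ} (h : zm hζ ^ i ≠ zm hζ ^ j) : V hζ (zm hζ ^ i - zm hζ ^ j) = exp (-1) := by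
  have h1 : hζ.toInteger ^ i ≠ hζ.toInteger ^ j := by
    intro h2
    apply h
    unfold zm
    rw [← map_pow, h2, map_pow]
  have h3 := diff_assoc hζ h1
  have h4 : zm hζ ^ i - zm hζ ^ j = om hζ (hζ.toInteger ^ i - hζ.toInteger ^ j) := by
    unfold zm
    rw [map_sub, map_pow, map_pow]
  rw [h4, V_om, ← lam_assoc h3, lam_pi]

/-- the value of `x + 1` if it is small -/
lemma V_one {x z ε : Kl hζ} (hodd : Odd ℓ) (hε : V hζ ε = 1) (h : x ^ ℓ + 1 = ε * z ^ ℓ)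
    {m : ℤ} (hz : V hζ z = exp (-m)) (hx : V hζ (x + 1) ≤ exp (-2)) :
    V hζ (x + 1) = exp (-(ℓ * m - (ℓ - 1))) ∧
      ∀ k : ℕ, zm hζ ^ k ≠ 1 → V hζ (x + zm hζ ^ k) = exp (-1) := by
  classical
  have hℓ := hp.out.pos
  have hne : NeZero ℓ := ⟨hℓ.ne'⟩
  have h2 : ∀ k : ℕ, zm hζ ^ k ≠ 1 → V hζ (x + zm hζ ^ k) = exp (-1) := by
    intro k hk
    have h3 : V hζ (zm hζ ^ k - 1) = exp (-1) := by
      have := V_diff hζ (i := k) (j := 0) (by rwa [pow_zero])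
      rwa [pow_zero] at this
    have e1 : x + zm hζ ^ k = (x + 1) + (zm hζ ^ k - 1) := by ring
    rw [e1, Valuation.map_add_eq_of_lt_right _ (by
      rw [h3]
      refine lt_of_le_of_lt hx ?_
      rw [exp_lt_exp]
      norm_num), h3]
  refine ⟨?_, h2⟩
  have hprod := (zm_prim hζ).pow_add_pow_eq_prod_add_mul x 1 hodd
  simp only [one_pow, mul_one] at hprod
  have hmem : (1 : Kl hζ) ∈ nthRootsFinset ℓ (1 : Kl hζ) := by
    rw [mem_nthRootsFinset hℓ, one_pow]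
  rw [h, ← Finset.mul_prod_erase _ _ hmem] at hprod
  have hrest : V hζ (∏ η ∈ (nthRootsFinset ℓ (1 : Kl hζ)).erase 1, (x + η)) =
      exp (-(((ℓ - 1 : ℕ) : ℤ))) := by
    rw [map_prod, Finset.prod_congr rfl (g := fun _ => exp (-1 : ℤ)), Finset.prod_const,
      Finset.card_erase_of_mem hmem, (zm_prim hζ).card_nthRootsFinset, exp_pow]
    · congr 1
      ring
    · intro η hη
      rw [Finset.mem_erase, mem_nthRootsFinset hℓ] at hη
      obtain ⟨k, -, rfl⟩ := (zm_prim hζ).eq_pow_of_pow_eq_one hη.2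
      exact h2 k hη.1
  have h3 := congrArg (V hζ) hprod
  rw [map_mul, map_mul, hε, one_mul, map_pow, hz, hrest, exp_pow] at h3
  have h4 : V hζ (x + 1) ≠ 0 := by
    intro h5
    rw [h5, zero_mul] at h3
    exact exp_ne_zero h3
  obtain ⟨a, ha⟩ := exists_exp h4
  rw [ha, ← exp_add, exp_inj] at h3
  rw [ha]
  congr 1
  have h5 : ((ℓ - 1 : ℕ) : ℤ) = ℓ - 1 := by
    have := hp.out.pos
    omega
  rw [h5] at h3
  linarith

lemma V_dvd {n : ℤ} (h : (ℓ : ℤ) ∣ n) : V hζ (n : Kl hζ) ≤ exp (-((ℓ - 1 : ℕ) : ℤ)) := by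
  obtain ⟨t, rfl⟩ := h
  push_cast
  rw [map_mul, V_ell]
  exact mul_le_of_le_one_right zero_le (V_intCast hζ t)

lemma near_root (hodd : Odd ℓ) {x z ε : Kl hζ} (hε : V hζ ε = 1) (h : x ^ ℓ + 1 = ε * z ^ ℓ)
    {m : ℤ} (hm : 1 ≤ m) (hz : V hζ z = exp (-m)) :
    V hζ x ≤ 1 ∧ ∃ k : ℕ, V hζ (x + zm hζ ^ k) ≤ exp (-2) := by
  have hℓ := hp.out.pos
  have hℓ2 : 2 ≤ ℓ := hp.out.two_le
  have hbig : exp (-((ℓ - 1 : ℕ) : ℤ)) ≤ (exp (-1) : WithZero (Multiplicative ℤ)) := by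
    rw [exp_le_exp]
    omega
  have h1 : V hζ (x ^ ℓ + 1) = exp (-(ℓ * m)) := by
    rw [h, map_mul, hε, one_mul, map_pow, hz, exp_pow]
    congr 1
    ring
  have h1' : V hζ (x ^ ℓ + 1) ≤ exp (-1) := by
    rw [h1, exp_le_exp]
    nlinarith
  have hlt1 : (exp (-1) : WithZero (Multiplicative ℤ)) ≤ 1 := by
    rw [← exp_zero, exp_le_exp]
    norm_num
  have hx : V hζ x ≤ 1 := by
    have h2 : V hζ (x ^ ℓ) ≤ 1 := by
      have e : x ^ ℓ = (x ^ ℓ + 1) - 1 := by ring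
      rw [e]
      exact Valuation.map_sub_le _ (h1'.trans hlt1) (by rw [map_one])
    rw [map_pow] at h2
    exact (pow_le_one_iff_of_nonneg zero_le hℓ.ne').1 h2
  refine ⟨hx, ?_⟩
  obtain ⟨r, hr1, hr⟩ := add_pow_near hζ hx (y := 1) (by rw [map_one])
  have h2 : V hζ (x + 1) ≤ exp (-1) := by
    rw [← lt_one_iff]
    have h3 : V hζ ((x + 1) ^ ℓ) < 1 := by
      rw [hr, one_pow]
      refine lt_of_le_of_lt (b := exp (-1)) (Valuation.map_add_le _ h1' ?_) ?_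
      · rw [map_mul, map_mul, map_mul, V_ell, map_one, mul_one]
        refine le_trans (mul_le_of_le_one_right zero_le hr1) ?_
        exact le_trans (mul_le_of_le_one_right zero_le hx) hbig
      · rw [← exp_zero, exp_lt_exp]
        norm_num
    rw [map_pow] at h3
    by_contra hcon
    exact absurd h3 (not_lt.2 (one_le_pow₀ (not_lt.1 hcon)))
  set π := om hζ (hζ.toInteger - 1) with hπ
  have hπ0 : π ≠ 0 := om_ne hζ (pi_ne_zero hζ)
  have hVπ : V hζ π = exp (-1) := V_pi hζ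
  have hy : V hζ ((x + 1) / π) ≤ 1 := by
    rw [map_div₀, hVπ]
    exact (div_le_one₀ (zero_lt_iff.2 exp_ne_zero)).2 h2
  obtain ⟨n, hn⟩ := near_rat hζ hy
  obtain ⟨k, hk⟩ : ∃ k : ℕ, (ℓ : ℤ) ∣ n + k := by
    refine ⟨((-n) % ℓ).toNat, ?_⟩
    have h3 : 0 ≤ (-n) % (ℓ : ℤ) := Int.emod_nonneg _ (by exact_mod_cast hℓ.ne')
    rw [Int.toNat_of_nonneg h3]
    have h4 := Int.emod_add_mul_ediv (-n) ℓ
    refine ⟨-((-n) / ℓ), ?_⟩
    linarith
  refine ⟨k, ?_⟩
  have hgeom := geom_sum_mul (zm hζ) k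
  have hzm : zm hζ - 1 = π := by
    rw [hπ, map_sub, map_one]
    rfl
  have hS : V hζ ((∑ i ∈ Finset.range k, zm hζ ^ i) - k) ≤ exp (-1) := by
    have e : (∑ i ∈ Finset.range k, zm hζ ^ i) - k =
        ∑ i ∈ Finset.range k, (zm hζ ^ i - 1) := by
      rw [Finset.sum_sub_distrib, Finset.sum_const, Finset.card_range, nsmul_eq_mul, mul_one]
    rw [e]
    refine Valuation.map_sum_le _ fun i _ => ?_
    by_cases h5 : zm hζ ^ i = 1
    · rw [h5, sub_self, map_zero]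
      exact zero_le
    · have := V_diff hζ (i := i) (j := 0) (by rwa [pow_zero])
      rw [pow_zero] at this
      exact this.le
  have e2 : x + zm hζ ^ k = π * ((((x + 1) / π) - n) + ((n + k : ℤ) : Kl hζ) +
      ((∑ i ∈ Finset.range k, zm hζ ^ i) - k)) := by
    rw [hzm] at hgeom
    have e3 : π * ((x + 1) / π) = x + 1 := mul_div_cancel₀ _ hπ0
    push_cast
    linear_combination (-1 : Kl hζ) * hgeom - e3
  rw [e2, map_mul, hVπ]
  have h6 : V hζ ((((x + 1) / π) - n) + ((n + k : ℤ) : Kl hζ) +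
      ((∑ i ∈ Finset.range k, zm hζ ^ i) - k)) ≤ exp (-1) :=
    Valuation.map_add_le _ (Valuation.map_add_le _ hn ((V_dvd hζ hk).trans hbig)) hS
  have e3 : (exp (-2) : WithZero (Multiplicative ℤ)) = exp (-1) * exp (-1) := by
    rw [← exp_add]
    norm_num
  rw [e3]
  exact mul_le_mul' le_rfl h6

/-- the value at the prime above `ℓ` -/
noncomputable def W : Valuation K (WithZero (Multiplicative ℤ)) := (lam hζ).valuation K

lemma W_eq (x : K) : W hζ x = V hζ (cm hζ x) := (V_cm hζ x).symm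

lemma cm_int (a : 𝓞 K) : cm hζ (algebraMap (𝓞 K) K a) = om hζ a := rfl

/-- valuations which are `ℓ`-th powers -/
lemma val_transfer {v : HeightOneSpectrum (𝓞 K)} {a b : K}
    (h : (v.valuation K).valuationSubring.valuation a =
      (v.valuation K).valuationSubring.valuation b) : v.valuation K a = v.valuation K b := by
  have h1 := Valuation.isEquiv_valuation_valuationSubring (v.valuation K)
  exact (h1.val_eq).2 h

lemma val_transfer_one {v : HeightOneSpectrum (𝓞 K)} {a : K}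
    (h : v.valuation K a = 1) : (v.valuation K).valuationSubring.valuation a = 1 := by
  have h1 := Valuation.isEquiv_valuation_valuationSubring (v.valuation K)
  have h2 := (h1.val_eq (r := a) (s := 1)).1 (by rw [h, map_one])
  rwa [map_one] at h2

/-- the ratios have `ℓ`-th powers as values outside `λ` -/
theorem ratio_val (hodd : Odd ℓ) {x z : K} {ε : (𝓞 K)ˣ} (hz : z ≠ 0)
    (h : x ^ ℓ + 1 = algebraMap (𝓞 K) K ε * z ^ ℓ) (i j : ℕ) (v : HeightOneSpectrum (𝓞 K))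
    (hv : v ≠ lam hζ) :
    ∃ t : K, t ≠ 0 ∧ v.valuation K ((x + ζ ^ i) / (x + ζ ^ j)) = v.valuation K t ^ ℓ := by
  have hℓ := hp.out.pos
  have hzint : algebraMap (𝓞 K) K hζ.toInteger = ζ := rfl
  obtain ⟨t, ht0, ht⟩ := fermat_local (v.valuation K).valuationSubring hℓ hodd hζ (by
      intro a b hab
      apply val_transfer_one
      have h1 : hζ.toInteger ^ a ≠ hζ.toInteger ^ b := by
        intro h2
        apply hab
        rw [← hzint, ← map_pow, h2, map_pow]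
      have h3 := diff_assoc hζ h1
      rw [← hzint, ← map_pow, ← map_pow, ← map_sub, v.valuation_of_algebraMap, ← lam_assoc h3,
        other_pi hζ hv]) (ε := algebraMap (𝓞 K) K ε) (by
      apply val_transfer_one
      rw [v.valuation_of_algebraMap, val_unit]) hz h i j
  refine ⟨t, ht0, ?_⟩
  rw [← map_pow] at ht ⊢
  exact val_transfer ht

/-- the ratios are units times `ℓ`-th powers -/
theorem ratio_pow (hodd : Odd ℓ) (hcop : (classNumber K).Coprime ℓ) {x z : K} {ε : (𝓞 K)ˣ}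
    (hz : z ≠ 0) (h : x ^ ℓ + 1 = algebraMap (𝓞 K) K ε * z ^ ℓ) (i j : ℕ) (b : ℤ)
    (hb : W hζ ((x + ζ ^ i) / (x + ζ ^ j)) = exp (-(ℓ * b))) :
    ∃ (u : (𝓞 K)ˣ) (α : K), α ≠ 0 ∧ (x + ζ ^ i) / (x + ζ ^ j) = algebraMap (𝓞 K) K u * α ^ ℓ ∧
      W hζ α = exp (-b) := by
  have hℓ := hp.out.pos
  have hε0 : algebraMap (𝓞 K) K ε ≠ 0 :=
    (map_ne_zero_iff _ (FaithfulSMul.algebraMap_injective (𝓞 K) K)).2 ε.ne_zero
  have hne := ne_of_pow hodd hζ hε0 hz h
  have hw0 : (x + ζ ^ i) / (x + ζ ^ j) ≠ 0 := div_ne_zero (hne i) (hne j)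
  obtain ⟨u, α, hα, hu⟩ := exists_unit_mul_pow hℓ hcop _ hw0 (by
    intro v
    by_cases hv : v = lam hζ
    · subst hv
      refine ⟨exp (-b), ?_⟩
      have h1 : (lam hζ).valuation K ((x + ζ ^ i) / (x + ζ ^ j)) = exp (-(ℓ * b)) := hb
      rw [h1, exp_pow]
      congr 1
      ring
    · obtain ⟨t, -, ht⟩ := ratio_val hζ hodd hz h i j v hv
      exact ⟨_, ht⟩)
  refine ⟨u, α, hα, hu, ?_⟩
  have h1 : W hζ (algebraMap (𝓞 K) K u) = 1 := by
    rw [W_eq, cm_int, V_unit]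
  rw [hu, map_mul, h1, one_mul, map_pow] at hb
  obtain ⟨m, hm⟩ := exists_exp ((Valuation.ne_zero_iff (W hζ)).2 hα)
  rw [hm, exp_pow, exp_inj] at hb
  rw [hm]
  congr 1
  have h2 : (ℓ : ℤ) ≠ 0 := by exact_mod_cast hℓ.ne'
  have h3 : (ℓ : ℤ) * (m + b) = 0 := by linarith
  rcases mul_eq_zero.1 h3 with h4 | h4
  · exact absurd h4 h2
  · linarith

end Pool.Agent.K3h44.FQ
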