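import Pool.Agent.K3h44.FQ.Kum
import Pool.Agent.K3h44.FQ.Loc

/-!
# The second case of Kummer's theorem over `ℚ(ζ_ℓ)` (adapted from `Pool.Agent.Y158.KL.Case2c`)
-/

set_option autoImplicit false
set_option linter.unusedSectionVars false

namespace Pool.Agent.K3h44.FQ

open NumberField IsDedekindDomain WithZero Polynomial Pool.Agent.Y158.KL

variable {K : Type} [Field K] [NumberField K] {ℓ : ℕ}
  [hp : Fact ℓ.Prime] [hK : IsCyclotomicExtension {ℓ} ℚ K] {ζ : K} (hζ : IsPrimitiveRoot ζ ℓ)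

lemma om_zeta : cm hζ ζ = zm hζ := rfl

/-- one step of the descent -/
theorem step (hodd : Odd ℓ) (hcop : (classNumber K).Coprime ℓ) (hKL : KLem ℓ K)
    {x z : K} {ε : (𝓞 K)ˣ} (hz : z ≠ 0) (h : x ^ ℓ + 1 = algebraMap (𝓞 K) K ε * z ^ ℓ)
    {m : ℤ} (hm : 1 ≤ m) (hVz : W hζ z = exp (-m)) (hVx : W hζ (x + 1) ≤ exp (-2)) :
    2 ≤ m ∧ ∃ (X Z : K) (ε₁ : (𝓞 K)ˣ), Z ≠ 0 ∧
      X ^ ℓ + 1 = algebraMap (𝓞 K) K ε₁ * Z ^ ℓ ∧ W hζ Z = exp (-(m - 1)) := by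
  have hℓ := hp.out.pos
  have hℓ1 : 1 < ℓ := hp.out.one_lt
  have hℓ3 : 3 ≤ ℓ := by
    obtain ⟨t, ht⟩ := hodd
    omega
  have hinj := FaithfulSMul.algebraMap_injective (𝓞 K) K
  have hζint : algebraMap (𝓞 K) K hζ.toInteger = ζ := rfl
  have hloc : (cm hζ x) ^ ℓ + 1 = om hζ ε * (cm hζ z) ^ ℓ := by
    rw [← map_pow, ← map_one (cm hζ), ← map_add, h, map_mul, map_pow]
    rfl
  rw [W_eq] at hVz hVx
  rw [map_add, map_one] at hVx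
  obtain ⟨hV1, hVk⟩ := V_one hζ hodd (V_unit hζ ε) hloc hVz hVx
  have hm2 : 2 ≤ m := by
    rw [hV1, exp_le_exp] at hVx
    by_contra hcon
    have : m = 1 := by omega
    subst this
    omega
  refine ⟨hm2, ?_⟩
  have hε0 : algebraMap (𝓞 K) K ε ≠ 0 := (map_ne_zero_iff _ hinj).2 ε.ne_zero
  have hne := ne_of_pow hodd hζ hε0 hz h
  have hζ1 : zm hζ ^ 1 ≠ 1 := by
    rw [pow_one]
    exact (zm_prim hζ).ne_one hℓ1
  have hζ2 : zm hζ ^ (ℓ - 1) ≠ 1 := by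
    intro h1
    have h2 := (zm_prim hζ).dvd_of_pow_eq_one _ h1
    have := Nat.le_of_dvd (by omega) h2
    omega
  have hWk : ∀ k : ℕ, W hζ (x + ζ ^ k) = V hζ (cm hζ x + zm hζ ^ k) := by
    intro k
    rw [W_eq, map_add, map_pow, om_zeta]
  obtain ⟨u₁, α, hα0, hα, hVα⟩ := ratio_pow hζ hodd hcop hz h 1 (ℓ - 1) 0 (by
    rw [map_div₀, hWk, hWk, hVk 1 hζ1, hVk _ hζ2, div_self exp_ne_zero]
    simp)
  obtain ⟨u₂, β, hβ0, hβ, hVβ⟩ := ratio_pow hζ hodd hcop hz h 0 (ℓ - 1) (m - 1) (by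
    rw [map_div₀, hWk, hWk, hVk _ hζ2, pow_zero, hV1, ← exp_sub]
    congr 1
    ring)
  have hαv1 : W hζ α = 1 := by
    rw [hVα]
    simp
  -- the identity
  have hid : algebraMap (𝓞 K) K u₁ * α ^ ℓ + ζ = (1 + ζ) * (algebraMap (𝓞 K) K u₂ * β ^ ℓ) := by
    rw [← hα, ← hβ]
    have hzl : ζ * ζ ^ (ℓ - 1) = 1 := by
      rw [← pow_succ', Nat.sub_add_cancel hℓ, hζ.pow_eq_one]
    have hn2 := hne (ℓ - 1)
    rw [pow_one, pow_zero]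
    field_simp
    linear_combination hzl
  have hidv : om hζ u₁ * (cm hζ α) ^ ℓ + zm hζ = (1 + zm hζ) * (om hζ u₂ * (cm hζ β) ^ ℓ) := by
    have h1 := congrArg (cm hζ) hid
    simp only [map_add, map_mul, map_pow, map_one] at h1
    exact h1
  obtain ⟨n, hn⟩ := pow_near hζ (w := cm hζ α) (by rw [← W_eq, hαv1])
  have hVzm1 : V hζ (1 + zm hζ) ≤ 1 :=
    Valuation.map_add_le _ (by rw [map_one]) (V_zm hζ).le
  have hdvd : (ℓ : 𝓞 K) ∣ u₁ * n + hζ.toInteger := by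
    apply ell_dvd_of hζ
    rw [← V_om]
    have e : om hζ ((u₁ : 𝓞 K) * n + hζ.toInteger) =
        (1 + zm hζ) * (om hζ u₂ * (cm hζ β) ^ ℓ) - om hζ u₁ * ((cm hζ α) ^ ℓ - n) := by
      rw [← hidv, map_add, map_mul, map_intCast]
      change _ + zm hζ = _
      ring
    rw [e]
    refine Valuation.map_sub_le _ ?_ ?_
    · rw [map_mul, map_mul, V_unit, one_mul, map_pow, ← W_eq, hVβ, exp_pow]
      refine le_trans (mul_le_of_le_one_left zero_le hVzm1) ?_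
      rw [exp_le_exp]
      have h5 : ((ℓ - 1 : ℕ) : ℤ) = ℓ - 1 := by omega
      rw [h5]
      nlinarith
    · rw [map_mul, V_unit, one_mul]
      exact hn
  -- the root of unity as a unit
  set zu : (𝓞 K)ˣ := (hζ.toInteger_isPrimitiveRoot.isUnit hℓ.ne').unit with hzu
  have hzu' : (zu : 𝓞 K) = hζ.toInteger := rfl
  obtain ⟨η, hη⟩ := hKL (zu * u₁⁻¹) (-n) (by
    obtain ⟨t, ht⟩ := hdvd
    refine ⟨t * ((u₁⁻¹ : (𝓞 K)ˣ) : 𝓞 K), ?_⟩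
    have h1 : ((u₁ : (𝓞 K)ˣ) : 𝓞 K) * ((u₁⁻¹ : (𝓞 K)ˣ) : 𝓞 K) = 1 := Units.mul_inv u₁
    push_cast
    rw [hzu']
    linear_combination ((u₁⁻¹ : (𝓞 K)ˣ) : 𝓞 K) * ht - (n : 𝓞 K) * h1)
  have hunit : IsUnit (1 + hζ.toInteger) := by
    have h1 := hζ.toInteger_isPrimitiveRoot.geom_sum_isUnit (j := 2) (by omega)
      ((Nat.coprime_primes Nat.prime_two hp.out).2 (by omega))
    have h2 : ∑ i ∈ Finset.range 2, hζ.toInteger ^ i = 1 + hζ.toInteger := by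
      rw [Finset.sum_range_succ, Finset.sum_range_one, pow_zero, pow_one]
    rwa [h2] at h1
  set wu : (𝓞 K)ˣ := hunit.unit with hwu
  have hwu' : (wu : 𝓞 K) = 1 + hζ.toInteger := rfl
  have hηL : algebraMap (𝓞 K) K η ≠ 0 := (map_ne_zero_iff _ hinj).2 η.ne_zero
  have hu₁η : algebraMap (𝓞 K) K u₁ * algebraMap (𝓞 K) K η ^ ℓ = ζ := by
    rw [← map_pow, ← map_mul]
    change _ = algebraMap (𝓞 K) K hζ.toInteger
    congr 1
    have h1 := congrArg (fun w : (𝓞 K)ˣ => (w : 𝓞 K)) hη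
    have h2 : ((u₁ : (𝓞 K)ˣ) : 𝓞 K) * ((u₁⁻¹ : (𝓞 K)ˣ) : 𝓞 K) = 1 := Units.mul_inv u₁
    push_cast at h1
    rw [hzu'] at h1
    rw [← h1]
    linear_combination hζ.toInteger * h2
  refine ⟨α / algebraMap (𝓞 K) K η, β / algebraMap (𝓞 K) K η, wu * u₂ * u₁⁻¹,
    div_ne_zero hβ0 hηL, ?_, ?_⟩
  · have hu₁0 : algebraMap (𝓞 K) K u₁ ≠ 0 := (map_ne_zero_iff _ hinj).2 u₁.ne_zero
    have e1 : algebraMap (𝓞 K) K ((wu * u₂ * u₁⁻¹ : (𝓞 K)ˣ) : 𝓞 K) =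
        (1 + ζ) * algebraMap (𝓞 K) K u₂ / algebraMap (𝓞 K) K u₁ := by
      rw [eq_div_iff hu₁0, ← map_mul]
      have h2 : ((u₁ : (𝓞 K)ˣ) : 𝓞 K) * ((u₁⁻¹ : (𝓞 K)ˣ) : 𝓞 K) = 1 := Units.mul_inv u₁
      have e2 : ((wu * u₂ * u₁⁻¹ : (𝓞 K)ˣ) : 𝓞 K) * u₁ = (1 + hζ.toInteger) * u₂ := by
        push_cast
        rw [hwu']
        linear_combination (1 + hζ.toInteger) * (u₂ : 𝓞 K) * h2
      rw [e2, map_mul, map_add, map_one, hζint]
    rw [e1, div_pow, div_pow]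
    field_simp
    linear_combination hid + hu₁η
  · have h1 : W hζ (algebraMap (𝓞 K) K η) = 1 := by
      rw [W_eq, cm_int, V_unit]
    rw [map_div₀, h1, div_one, hVβ]

theorem red_step (hodd : Odd ℓ) (hcop : (classNumber K).Coprime ℓ) (hKL : KLem ℓ K)
    {x z : K} {ε : (𝓞 K)ˣ} (hz : z ≠ 0) (h : x ^ ℓ + 1 = algebraMap (𝓞 K) K ε * z ^ ℓ)
    {m : ℤ} (hm : 1 ≤ m) (hVz : W hζ z = exp (-m)) :
    2 ≤ m ∧ ∃ (X Z : K) (ε₁ : (𝓞 K)ˣ), Z ≠ 0 ∧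
      X ^ ℓ + 1 = algebraMap (𝓞 K) K ε₁ * Z ^ ℓ ∧ W hζ Z = exp (-(m - 1)) := by
  have hloc : (cm hζ x) ^ ℓ + 1 = om hζ ε * (cm hζ z) ^ ℓ := by
    rw [← map_pow, ← map_one (cm hζ), ← map_add, h, map_mul, map_pow]
    rfl
  obtain ⟨-, k, hk⟩ := near_root hζ hodd (V_unit hζ ε) hloc hm (by rw [← W_eq]; exact hVz)
  have hz0 : ζ ^ k ≠ 0 := pow_ne_zero _ (hζ.ne_zero hp.out.ne_zero)
  refine step hζ hodd hcop hKL (ε := ε) (x := x / ζ ^ k) hz ?_ hm hVz ?_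
  · rw [div_pow, ← pow_mul, mul_comm k ℓ, pow_mul, hζ.pow_eq_one, one_pow, div_one, h]
  · have e : x / ζ ^ k + 1 = (x + ζ ^ k) / ζ ^ k := by
      field_simp
    rw [e, W_eq, map_div₀, map_add, map_pow, om_zeta, map_div₀, map_pow (V hζ), V_zm, one_pow,
      div_one]
    exact hk

/-- There are no solutions in the second case with a nonzero value of `z`. -/
theorem case2 (hodd : Odd ℓ) (hcop : (classNumber K).Coprime ℓ) (hKL : KLem ℓ K)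
    (m : ℕ) (hm : 1 ≤ m) :
    ∀ {x z : K} {ε : (𝓞 K)ˣ}, z ≠ 0 → x ^ ℓ + 1 = algebraMap (𝓞 K) K ε * z ^ ℓ →
      W hζ z = exp (-(m : ℤ)) → False := by
  induction m, hm using Nat.le_induction with
  | base =>
    intro x z ε hz h hV
    obtain ⟨h1, -⟩ := red_step hζ hodd hcop hKL hz h (m := 1) le_rfl
      (by simpa using hV)
    omega
  | succ m hm ih =>
    intro x z ε hz h hV
    obtain ⟨-, X, Z, ε₁, h1, h2, h3⟩ :=
      red_step hζ hodd hcop hKL hz h (m := ((m + 1 : ℕ) : ℤ)) (by omega) hV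
    refine ih h1 h2 ?_
    rw [h3]
    congr 1
    push_cast
    ring

/-- There are no solutions in the second case. -/
theorem case2' (hodd : Odd ℓ) (hcop : (classNumber K).Coprime ℓ) {x z : K} {ε : (𝓞 K)ˣ}
    (hz : z ≠ 0) (h : x ^ ℓ + 1 = algebraMap (𝓞 K) K ε * z ^ ℓ) (hV : W hζ z < 1) : False := by
  have h2 : 2 < ℓ := by
    have := hp.out.two_le
    obtain ⟨t, ht⟩ := hodd
    omega
  obtain ⟨m, hm⟩ := exists_exp ((Valuation.ne_zero_iff (W hζ)).2 hz)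
  rw [hm, ← exp_zero, exp_lt_exp] at hV
  obtain ⟨n, hn⟩ : ∃ n : ℕ, m = -(n : ℤ) := ⟨(-m).toNat, by omega⟩
  exact case2 hζ hodd hcop (kummer_lemma hζ h2 hcop) n (by omega) hz h (by rw [hm, hn])

end Pool.Agent.K3h44.FQ
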