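import Pool.Agent.Y158.KL.Hil5
import Pool.Agent.Y158.KL.Glob1

/-!
# Kummer's lemma (copied from `Pool.Agent.Y158.KL`, with fewer imports)
-/

set_option autoImplicit false
set_option linter.unusedSectionVars false

namespace Pool.Agent.K3h44.FQ

open NumberField IsDedekindDomain Polynomial Pool.Agent.Y158.KL

/-- Kummer's lemma -/
def KLem (ℓ : ℕ) (K : Type) [Field K] [NumberField K] : Prop :=
  ∀ (u : (𝓞 K)ˣ) (n : ℤ), (ℓ : 𝓞 K) ∣ (u : 𝓞 K) - n → ∃ η : (𝓞 K)ˣ, u = η ^ ℓ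

variable {ℓ : ℕ} [hp : Fact ℓ.Prime] {K : Type} [Field K] [NumberField K]
  [hK : IsCyclotomicExtension {ℓ} ℚ K] {ζ : K} (hζ : IsPrimitiveRoot ζ ℓ)

/-- an `ℓ`-th root of a unit is a unit -/
theorem unit_root (u : (𝓞 K)ˣ) {b : K} (hb : b ^ ℓ = algebraMap (𝓞 K) K u) :
    ∃ η : (𝓞 K)ˣ, u = η ^ ℓ := by
  have hℓ := hp.out.pos
  have i1 : IsIntegral ℤ b := by
    apply IsIntegral.of_pow hℓ
    rw [hb]
    exact RingOfIntegers.isIntegral_coe _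
  obtain ⟨b', hb'⟩ : ∃ b' : 𝓞 K, algebraMap (𝓞 K) K b' = b := ⟨⟨b, i1⟩, rfl⟩
  have h1 : b' ^ ℓ = (u : 𝓞 K) := by
    apply FaithfulSMul.algebraMap_injective (𝓞 K) K
    rw [map_pow, hb', hb]
  have h2 : IsUnit b' := by
    rw [← isUnit_pow_iff hℓ.ne', h1]
    exact u.isUnit
  refine ⟨h2.unit, ?_⟩
  apply Units.ext
  rw [Units.val_pow_eq_pow_val, IsUnit.unit_spec, h1]

include hζ in
/-- a primary unit is an `ℓ`-th power -/
theorem primary_unit (hℓ2 : 2 < ℓ) (hcop : (classNumber K).Coprime ℓ) (u : (𝓞 K)ˣ)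
    (hu : (hζ.toInteger - 1) ^ ℓ ∣ (u : 𝓞 K) - 1) : ∃ η : (𝓞 K)ˣ, u = η ^ ℓ := by
  classical
  by_contra hcon
  have hℓ := hp.out.pos
  have : NeZero ℓ := ⟨hp.out.ne_zero⟩
  have hirr : Irreducible (X ^ ℓ - C (algebraMap (𝓞 K) K u)) :=
    X_pow_sub_C_irreducible_of_prime hp.out fun b hb => hcon (unit_root u hb)
  have hne : (primitiveRoots ℓ K).Nonempty := ⟨ζ, (mem_primitiveRoots hℓ).2 hζ⟩
  let L : Type := (X ^ ℓ - C (algebraMap (𝓞 K) K u)).SplittingField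
  have hfd : FiniteDimensional K L := inferInstance
  have hchar : CharZero L := charZero_of_injective_algebraMap (algebraMap K L).injective
  have hL : NumberField L :=
    { to_charZero := hchar
      to_finiteDimensional := by
        have : FiniteDimensional ℚ L := FiniteDimensional.trans ℚ K L
        exact this }
  have hG : IsGalois K L := isGalois_of_isSplittingField_X_pow_sub_C hne hirr L
  have hcyc : IsCyclic (L ≃ₐ[K] L) := isCyclic_of_isSplittingField_X_pow_sub_C hne hirr L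
  have hdeg : Module.finrank K L = ℓ := finrank_of_isSplittingField_X_pow_sub_C hne hirr L
  obtain ⟨σ, hσ⟩ := hcyc.exists_generator
  obtain ⟨θ, hθ⟩ : ∃ θ : L, θ ^ ℓ = algebraMap K L (algebraMap (𝓞 K) K u) :=
    ⟨_, rootOfSplitsXPowSubC_pow (n := ℓ) (a := algebraMap (𝓞 K) K u) L⟩
  have hadj : Algebra.adjoin K {θ} = ⊤ :=
    Algebra.adjoin_root_eq_top_of_isSplittingField hne hirr hθ
  have hπ0 : hζ.toInteger - 1 ≠ 0 := pi_ne_zero hζ
  obtain ⟨ε, hε⟩ := IsCyclotomicExtension.Rat.associated_zeta_sub_one_pow_prime ℓ hζ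
  obtain ⟨g, hgm, hg⟩ := exists_poly hp.out hπ0 (Dvd.intro _ hε) hu
  obtain ⟨π, hπ⟩ : ∃ π : 𝓞 K, π = hζ.toInteger - 1 := ⟨_, rfl⟩
  rw [← hπ] at hπ0 hε hg hu
  have hπL : algebraMap (𝓞 K) L π ≠ 0 :=
    (map_ne_zero_iff _ (FaithfulSMul.algebraMap_injective (𝓞 K) L)).2 hπ0
  obtain ⟨y, hy⟩ : ∃ y : L, y = (θ - 1) / algebraMap (𝓞 K) L π := ⟨_, rfl⟩
  have hyθ : 1 + algebraMap (𝓞 K) L π * y = θ := by
    rw [hy, mul_div_cancel₀ _ hπL, add_sub_cancel]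
  have hgy : aeval y g = 0 := by
    have h1 := congrArg (aeval y) hg
    simp only [map_mul, aeval_C, map_sub, map_pow, map_add, map_one, aeval_X] at h1
    rw [hyθ, hθ, ← IsScalarTower.algebraMap_apply, sub_self] at h1
    exact (mul_eq_zero.1 h1).resolve_left (pow_ne_zero _ hπL)
  have hyint : IsIntegral (𝓞 K) y := ⟨g, hgm, hgy⟩
  have hyZ : IsIntegral ℤ y := isIntegral_trans (R := ℤ) (A := 𝓞 K) y hyint
  let Y : 𝓞 L := ⟨y, hyZ⟩
  have hYy : algebraMap (𝓞 L) L Y = y := rfl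
  have hgY : aeval Y g = 0 := by
    apply FaithfulSMul.algebraMap_injective (𝓞 L) L
    rw [← aeval_algebraMap_apply, hYy, hgy, map_zero]
  have hYtop : Algebra.adjoin K {algebraMap (𝓞 L) L Y} = ⊤ := by
    rw [← top_le_iff, ← hadj]
    apply Algebra.adjoin_le
    rintro _ rfl
    rw [SetLike.mem_coe, ← hyθ, hYy, IsScalarTower.algebraMap_apply (𝓞 K) K L]
    exact add_mem (one_mem _) (mul_mem (Subalgebra.algebraMap_mem _ _)
      (Algebra.subset_adjoin rfl))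
  obtain ⟨T, hT⟩ : ∃ T : 𝓞 L, T = 1 + algebraMap (𝓞 K) (𝓞 L) π * Y := ⟨_, rfl⟩
  have hTu : IsUnit T := by
    have h1 : T ^ ℓ = algebraMap (𝓞 K) (𝓞 L) u := by
      apply FaithfulSMul.algebraMap_injective (𝓞 L) L
      rw [hT, map_pow, map_add, map_one, map_mul, ← IsScalarTower.algebraMap_apply, hYy, hyθ, hθ,
        ← IsScalarTower.algebraMap_apply, ← IsScalarTower.algebraMap_apply]
    rw [← isUnit_pow_iff hℓ.ne', h1]
    exact u.isUnit.map _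
  have hder : IsUnit (aeval Y (derivative g)) := by
    have h0 := congrArg derivative hg
    rw [derivative_C_mul, derivative_sub, derivative_C, sub_zero, derivative_pow, derivative_add,
      derivative_one, zero_add, derivative_C_mul, derivative_X, mul_one] at h0
    have h1 := congrArg (aeval Y) h0
    simp only [map_mul, map_pow, map_add, map_one, aeval_C, aeval_X] at h1
    rw [← hT] at h1
    have h2 : aeval Y (derivative g) = algebraMap (𝓞 K) (𝓞 L) ε * T ^ (ℓ - 1) := by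
      have hπ' : algebraMap (𝓞 K) (𝓞 L) π ^ ℓ ≠ 0 := pow_ne_zero _
        ((map_ne_zero_iff _ (FaithfulSMul.algebraMap_injective (𝓞 K) (𝓞 L))).2 hπ0)
      apply mul_left_cancel₀ hπ'
      rw [h1]
      have h3 : (ℓ : 𝓞 L) = algebraMap (𝓞 K) (𝓞 L) π ^ (ℓ - 1) * algebraMap (𝓞 K) (𝓞 L) ε := by
        rw [← map_pow, ← map_mul, hε, map_natCast]
      obtain ⟨m, hm⟩ : ∃ m, ℓ = m + 1 := ⟨ℓ - 1, by omega⟩
      have h4 : algebraMap (𝓞 K) (𝓞 L) π ^ ℓ =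
          algebraMap (𝓞 K) (𝓞 L) π ^ (ℓ - 1) * algebraMap (𝓞 K) (𝓞 L) π := by
        rw [← pow_succ, Nat.sub_add_cancel hℓ]
      have h5 : aeval Y (C (ℓ : 𝓞 K)) = (ℓ : 𝓞 L) := by
        rw [aeval_C, map_natCast]
      rw [h4]
      simp only [map_natCast] at h5 ⊢
      rw [h3]
      ring
    rw [h2]
    exact (ε.isUnit.map _).mul (hTu.pow _)
  exact hilb94 hζ hσ hdeg hℓ2 hcop (unram_of_unit Y hYtop g hgY hder)

lemma prod_one_add {R ι : Type*} [CommRing R] (s : Finset ι) (a : R) (b : ι → R) :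
    ∃ c : R, ∏ i ∈ s, (1 + a * b i) = 1 + a * ∑ i ∈ s, b i + a ^ 2 * c := by
  classical
  induction s using Finset.induction_on with
  | empty => exact ⟨0, by simp⟩
  | insert i s hi ih =>
    obtain ⟨c, hc⟩ := ih
    refine ⟨c + b i * (∑ j ∈ s, b j + a * c), ?_⟩
    rw [Finset.prod_insert hi, Finset.sum_insert hi, hc]
    ring

lemma ell_pi : hζ.toInteger - 1 ∣ (ℓ : 𝓞 K) := by
  have h := (pi_dvd_int hζ (n := (ℓ : ℤ))).2 dvd_rfl
  rwa [Int.cast_natCast] at h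

lemma aut_pi (τ : 𝓞 K →+* 𝓞 K) : hζ.toInteger - 1 ∣ τ (hζ.toInteger - 1) := by
  have hζi := hζ.toInteger_isPrimitiveRoot
  have : NeZero ℓ := ⟨hp.out.ne_zero⟩
  have h1 : τ hζ.toInteger ^ ℓ = 1 := by rw [← map_pow, hζi.pow_eq_one, map_one]
  obtain ⟨k, _, hk⟩ := hζi.eq_pow_of_pow_eq_one h1
  rw [map_sub, map_one, ← hk]
  have := sub_dvd_pow_sub_pow hζ.toInteger 1 k
  rwa [one_pow] at this

include hζ in
theorem norm_arg (hℓ2 : 2 < ℓ) (u : (𝓞 K)ˣ) (t : 𝓞 K) (hu : (u : 𝓞 K) = 1 + ℓ * t) :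
    hζ.toInteger - 1 ∣ t := by
  classical
  have hG : IsGalois ℚ K := IsCyclotomicExtension.isGalois {ℓ} ℚ K
  obtain ⟨π, hπ⟩ : ∃ π : 𝓞 K, π = hζ.toInteger - 1 := ⟨_, rfl⟩
  have hdi : ∀ n : ℤ, π ∣ (n : 𝓞 K) ↔ (ℓ : ℤ) ∣ n := fun n => by
    rw [hπ]
    exact pi_dvd_int hζ
  have hℓπ : π ∣ (ℓ : 𝓞 K) := by rw [hπ]; exact ell_pi hζ
  have hprod : ∀ x : 𝓞 K, ∃ N : ℤ, ∏ σ : K ≃ₐ[ℚ] K, galRestrict ℤ ℚ K (𝓞 K) σ x = N := fun x => by
    exact ⟨_, prod_galRestrict_eq_norm ℤ (K := ℚ) (L := K) (B := 𝓞 K) x⟩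
  obtain ⟨N, hN⟩ := hprod u
  obtain ⟨N', hN'⟩ := hprod ((u⁻¹ : (𝓞 K)ˣ) : 𝓞 K)
  have hNN : N * N' = 1 := by
    have h1 : ((N * N' : ℤ) : 𝓞 K) = 1 := by
      rw [Int.cast_mul, ← hN, ← hN', ← Finset.prod_mul_distrib]
      apply Finset.prod_eq_one
      intro σ _
      rw [← map_mul, Units.mul_inv, map_one]
    exact_mod_cast h1
  obtain ⟨c, hc⟩ := prod_one_add Finset.univ (ℓ : 𝓞 K)
    (fun σ : K ≃ₐ[ℚ] K => galRestrict ℤ ℚ K (𝓞 K) σ t)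
  have hNc : (N : 𝓞 K) = 1 + ℓ * ∑ σ : K ≃ₐ[ℚ] K, galRestrict ℤ ℚ K (𝓞 K) σ t + ℓ ^ 2 * c := by
    rw [← hc, ← hN]
    refine Finset.prod_congr rfl fun σ _ => ?_
    rw [hu, map_add, map_one, map_mul, map_natCast]
  have hN1 : N = 1 := by
    have h1 : π ∣ ((N - 1 : ℤ) : 𝓞 K) := by
      rw [Int.cast_sub, Int.cast_one, hNc]
      refine hℓπ.trans ⟨∑ σ : K ≃ₐ[ℚ] K, galRestrict ℤ ℚ K (𝓞 K) σ t + ℓ * c, ?_⟩
      ring
    rw [hdi] at h1
    rcases Int.eq_one_or_neg_one_of_mul_eq_one hNN with h | h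
    · exact h
    · exfalso
      rw [h] at h1
      have h2 : (ℓ : ℤ) ∣ 2 := by
        have := h1.neg_right
        norm_num at this
        exact this
      have := Int.le_of_dvd (by norm_num) h2
      omega
  have hS : π ∣ ∑ σ : K ≃ₐ[ℚ] K, galRestrict ℤ ℚ K (𝓞 K) σ t := by
    have hℓ0 : (ℓ : 𝓞 K) ≠ 0 := by exact_mod_cast hp.out.ne_zero
    have h1 : ∑ σ : K ≃ₐ[ℚ] K, galRestrict ℤ ℚ K (𝓞 K) σ t = -(ℓ * c) := by
      apply mul_left_cancel₀ hℓ0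
      rw [hN1, Int.cast_one] at hNc
      linear_combination -hNc
    rw [h1, dvd_neg]
    exact hℓπ.mul_right _
  obtain ⟨a, ha⟩ := res_int hζ t
  rw [← hπ] at ha ⊢
  have h2 : ∀ σ : K ≃ₐ[ℚ] K, π ∣ galRestrict ℤ ℚ K (𝓞 K) σ t - a := by
    intro σ
    obtain ⟨q, hq⟩ := ha
    have h3 := congrArg (galRestrict ℤ ℚ K (𝓞 K) σ) hq
    rw [map_sub, map_intCast, map_mul] at h3
    rw [h3]
    have h4 : π ∣ galRestrict ℤ ℚ K (𝓞 K) σ π := by
      rw [hπ]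
      exact aut_pi hζ (galRestrict ℤ ℚ K (𝓞 K) σ : 𝓞 K →+* 𝓞 K)
    exact h4.mul_right _
  have h5 : π ∣ ((Fintype.card (K ≃ₐ[ℚ] K) : ℤ) * a : ℤ) := by
    have h6 := Finset.dvd_sum (s := Finset.univ) fun σ (_ : σ ∈ Finset.univ) => h2 σ
    rw [Finset.sum_sub_distrib, Finset.sum_const, Finset.card_univ] at h6
    have h7 := (dvd_sub_right hS).1 h6
    rw [nsmul_eq_mul] at h7
    push_cast
    exact h7
  have hcard : Fintype.card (K ≃ₐ[ℚ] K) = ℓ - 1 := by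
    rw [← Nat.card_eq_fintype_card, IsGalois.card_aut_eq_finrank,
      IsCyclotomicExtension.finrank K (Polynomial.cyclotomic.irreducible_rat hp.out.pos),
      Nat.totient_prime hp.out]
  rw [hdi, hcard] at h5
  have h8 : (ℓ : ℤ) ∣ a := by
    have h9 : (((ℓ - 1 : ℕ) : ℤ)) * a = ℓ * a - a := by
      rw [Nat.cast_sub hp.out.one_le]
      push_cast
      ring
    rw [h9] at h5
    exact (dvd_sub_right (Dvd.intro _ rfl)).1 h5
  rw [← hdi] at h8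
  have := dvd_add ha h8
  rwa [sub_add_cancel] at this

include hζ in
/-- **Kummer's lemma.** -/
theorem kummer_lemma (hℓ2 : 2 < ℓ) (hcop : (classNumber K).Coprime ℓ) : KLem ℓ K := by
  intro u n hn
  obtain ⟨π, hπ⟩ : ∃ π : 𝓞 K, π = hζ.toInteger - 1 := ⟨_, rfl⟩
  have hℓπ : π ∣ (ℓ : 𝓞 K) := by rw [hπ]; exact ell_pi hζ
  have hπp : Prime π := by rw [hπ]; exact pi_prime hζ
  have hnℓ : ¬ (ℓ : ℤ) ∣ n := by
    intro h
    rw [← pi_dvd_int hζ, ← hπ] at h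
    have h1 := dvd_add (hℓπ.trans hn) h
    rw [sub_add_cancel] at h1
    exact hπp.not_isUnit (isUnit_of_dvd_unit h1 u.isUnit)
  have hcopn : IsCoprime n (ℓ : ℤ) :=
    ((Nat.prime_iff_prime_int.1 hp.out).coprime_iff_not_dvd.2 hnℓ).symm
  have h1 : (ℓ : ℤ) ∣ n ^ (ℓ - 1) - 1 := (Int.ModEq.pow_card_sub_one_eq_one hp.out hcopn).symm.dvd
  have h2 : (ℓ : 𝓞 K) ∣ (u : 𝓞 K) ^ (ℓ - 1) - 1 := by
    have h3 := hn.trans (sub_dvd_pow_sub_pow (u : 𝓞 K) (n : 𝓞 K) (ℓ - 1))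
    have h4 : (ℓ : 𝓞 K) ∣ (n : 𝓞 K) ^ (ℓ - 1) - 1 := by
      have := (Int.castRingHom (𝓞 K)).map_dvd h1
      simpa using this
    have := dvd_add h3 h4
    rwa [sub_add_sub_cancel] at this
  obtain ⟨t, ht⟩ := h2
  have h5 : (((u ^ (ℓ - 1) : (𝓞 K)ˣ)) : 𝓞 K) = 1 + ℓ * t := by
    rw [Units.val_pow_eq_pow_val, ← ht, add_sub_cancel]
  have h6 := norm_arg hζ hℓ2 _ t h5
  obtain ⟨ε, hε⟩ := IsCyclotomicExtension.Rat.associated_zeta_sub_one_pow_prime ℓ hζ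
  have h7 : (hζ.toInteger - 1) ^ ℓ ∣ (((u ^ (ℓ - 1) : (𝓞 K)ˣ)) : 𝓞 K) - 1 := by
    rw [h5, add_sub_cancel_left, ← hε]
    have : (hζ.toInteger - 1) ^ ℓ = (hζ.toInteger - 1) ^ (ℓ - 1) * (hζ.toInteger - 1) := by
      rw [← pow_succ, Nat.sub_add_cancel hp.out.one_le]
    rw [this]
    exact mul_dvd_mul (Dvd.intro _ rfl) h6
  obtain ⟨η, hη⟩ := primary_unit hζ hℓ2 hcop _ h7
  refine ⟨u * η⁻¹, ?_⟩
  rw [mul_pow, inv_pow, ← hη, eq_mul_inv_iff_mul_eq, ← pow_succ',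
    Nat.sub_add_cancel hp.out.one_le]

end Pool.Agent.K3h44.FQ
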