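import Mathlib

/-!
# Lucas sequences and a product over the roots of unity
-/

set_option autoImplicit false
set_option linter.unusedSectionVars false

namespace Pool.Agent.K3h44.FQ

open WithZero Polynomial

/-- the Lucas sequence `g ^ n + h ^ n`, where `g + h = S` and `g * h = N` -/
def luc {R : Type*} [CommRing R] (S N : R) : ℕ → R
  | 0 => 2
  | 1 => S
  | (n + 2) => S * luc S N (n + 1) - N * luc S N n

lemma luc_eq {R : Type*} [CommRing R] {S N g h : R} (hS : g + h = S) (hN : g * h = N) (n : ℕ) :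
    luc S N n = g ^ n + h ^ n := by
  induction n using Nat.twoStepInduction with
  | zero =>
    rw [luc, pow_zero, pow_zero]
    norm_num
  | one => rw [luc, pow_one, pow_one, hS]
  | more n ih1 ih2 =>
    rw [luc, ih1, ih2, ← hS, ← hN]
    ring

lemma luc_map {R R' : Type*} [CommRing R] [CommRing R'] (f : R →+* R') (S N : R) (n : ℕ) :
    luc (f S) (f N) n = f (luc S N n) := by
  induction n using Nat.twoStepInduction with
  | zero =>
    rw [luc, luc, map_ofNat]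
  | one => rw [luc, luc]
  | more n ih1 ih2 =>
    rw [luc, luc, ih1, ih2, map_sub, map_mul, map_mul]

/-- the product of the factors of `g ^ ℓ + h ^ ℓ = 1` with their conjugates -/
theorem prod_D {F : Type*} [Field F] [CharZero F] {ℓ : ℕ} (hℓ : 0 < ℓ) (hodd : Odd ℓ) {ζ : F}
    (hζ : IsPrimitiveRoot ζ ℓ) {S N : F} (h : luc S N ℓ = 1) :
    ∏ η ∈ nthRootsFinset ℓ (1 : F), (S ^ 2 - (2 - η - η⁻¹) * N) = 1 := by
  classical
  have : NeZero ℓ := ⟨hℓ.ne'⟩
  set i := algebraMap F (AlgebraicClosure F) with hi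
  have hinj : Function.Injective i := i.injective
  obtain ⟨d, hd⟩ := IsAlgClosed.exists_eq_mul_self (i (S ^ 2 - 4 * N))
  set g := (i S + d) / 2 with hg
  set k := (i S - d) / 2 with hk
  have hgk : g + k = i S := by
    rw [hg, hk]
    ring
  have hgk2 : g * k = i N := by
    have : g * k = ((i S) ^ 2 - d * d) / 4 := by
      rw [hg, hk]
      ring
    rw [this, ← hd, map_sub, map_pow, map_mul, map_ofNat]
    ring
  have hgl : g ^ ℓ + k ^ ℓ = 1 := by
    rw [← luc_eq hgk hgk2, luc_map, h, map_one]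
  have hζ' : IsPrimitiveRoot (i ζ) ℓ := hζ.map_of_injective hinj
  have hp := hζ'.pow_add_pow_eq_prod_add_mul g k hodd
  rw [hgl] at hp
  have hne : ∀ η ∈ nthRootsFinset ℓ (1 : AlgebraicClosure F), η ≠ 0 := by
    intro η hη
    rw [mem_nthRootsFinset hℓ] at hη
    rintro rfl
    rw [zero_pow hℓ.ne'] at hη
    exact zero_ne_one hη
  have hp2 : ∏ η ∈ nthRootsFinset ℓ (1 : AlgebraicClosure F), (g + η⁻¹ * k) = 1 := by
    refine Eq.trans ?_ hp.symm
    refine Finset.prod_nbij' (fun η => η⁻¹) (fun η => η⁻¹) ?_ ?_ ?_ ?_ ?_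
    · intro η hη
      rw [mem_nthRootsFinset hℓ] at hη ⊢
      rw [inv_pow, hη, inv_one]
    · intro η hη
      rw [mem_nthRootsFinset hℓ] at hη ⊢
      rw [inv_pow, hη, inv_one]
    · intro η _
      exact inv_inv η
    · intro η _
      exact inv_inv η
    · intro η _
      rfl
  apply hinj
  rw [map_prod, map_one]
  have h1 : ∏ η ∈ nthRootsFinset ℓ (1 : F), i (S ^ 2 - (2 - η - η⁻¹) * N) =
      ∏ η ∈ nthRootsFinset ℓ (1 : AlgebraicClosure F), ((i S) ^ 2 - (2 - η - η⁻¹) * i N) := by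
    refine Finset.prod_nbij i ?_ (fun a _ b _ hab => hinj hab) ?_ ?_
    · intro η hη
      rw [mem_nthRootsFinset hℓ] at hη ⊢
      rw [← map_pow, hη, map_one]
    · intro η hη
      rw [Finset.mem_coe, mem_nthRootsFinset hℓ] at hη
      obtain ⟨j, -, rfl⟩ := hζ'.eq_pow_of_pow_eq_one hη
      refine ⟨ζ ^ j, ?_, by rw [map_pow]⟩
      rw [Finset.mem_coe, mem_nthRootsFinset hℓ, ← pow_mul, mul_comm, pow_mul, hζ.pow_eq_one,
        one_pow]
    · intro η _
      simp only [map_sub, map_pow, map_mul, map_inv₀, map_ofNat]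
  rw [h1]
  have h2 : ∏ η ∈ nthRootsFinset ℓ (1 : AlgebraicClosure F), ((i S) ^ 2 - (2 - η - η⁻¹) * i N) =
      (∏ η ∈ nthRootsFinset ℓ (1 : AlgebraicClosure F), (g + η * k)) *
      ∏ η ∈ nthRootsFinset ℓ (1 : AlgebraicClosure F), (g + η⁻¹ * k) := by
    rw [← Finset.prod_mul_distrib]
    refine Finset.prod_congr rfl fun η hη => ?_
    have h3 := hne η hη
    rw [← hgk, ← hgk2]
    field_simp
    ring
  rw [h2, hp2, ← hp, one_mul]

lemma aux_pow {G : Type*} [CommGroupWithZero G] {a d : G} (ha : a ≠ 0) {r : ℕ} (hr : 1 ≤ r)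
    (h : d * (d * a ^ (2 * r - 1)) = 1) : a * ((d / a) * a ^ r) ^ (2 * r + 1) = d := by
  obtain ⟨e, rfl⟩ : ∃ e, d = a * e := ⟨d / a, (mul_div_cancel₀ d ha).symm⟩
  obtain ⟨s, rfl⟩ : ∃ s, r = s + 1 := ⟨r - 1, by omega⟩
  have h7 : 2 * (s + 1) - 1 = 2 * s + 1 := by omega
  rw [h7] at h
  have h1 : a * e / a = e := by
    rw [mul_comm, mul_div_cancel_right₀ _ ha]
  have h2 : e ^ 2 * a ^ (2 * (s + 1) + 1) = 1 := by
    rw [← h]
    have : a ^ (2 * (s + 1) + 1) = a * (a * a ^ (2 * s + 1)) := by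
      rw [← pow_succ', ← pow_succ']
      congr 1
    rw [this, pow_two]
    simp only [mul_assoc, mul_left_comm e a]
  have h3 : (e * a ^ (s + 1)) ^ (2 * (s + 1) + 1) =
      e * (e ^ 2 * a ^ (2 * (s + 1) + 1)) ^ (s + 1) := by
    rw [mul_pow, mul_pow, ← pow_mul, ← pow_mul, ← pow_mul, pow_succ' e (2 * (s + 1)),
      mul_comm (s + 1) (2 * (s + 1) + 1), mul_assoc]
  rw [h1, h3, h2, one_pow, mul_one]

/-- away from `ℓ`, the factors have `ℓ`-th powers as values, up to a common factor -/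
theorem val_D {F : Type*} [Field F] (v : Valuation F (WithZero (Multiplicative ℤ))) {ℓ : ℕ}
    (hℓ : 0 < ℓ) (hodd : Odd ℓ) (hη1 : ∀ η : F, η ^ ℓ = 1 → η ≠ 1 → v (η - 1) = 1)
    {S N : F}
    (hprod : ∏ η ∈ nthRootsFinset ℓ (1 : F), (S ^ 2 - (2 - η - η⁻¹) * N) = 1)
    {ζ : F} (hζ : IsPrimitiveRoot ζ ℓ)
    (η : F) (hη : η ^ ℓ = 1) :
    ∃ t : WithZero (Multiplicative ℤ), v (S ^ 2 - (2 - η - η⁻¹) * N) = v S ^ 2 * t ^ ℓ := by
  classical
  have hne : ∀ η : F, η ^ ℓ = 1 → η ≠ 0 := by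
    rintro η hη rfl
    rw [zero_pow hℓ.ne'] at hη
    exact zero_ne_one hη
  have hv1 : ∀ η : F, η ^ ℓ = 1 → v η = 1 := by
    intro η hη
    have h1 : v η ^ ℓ = 1 := by rw [← map_pow, hη, map_one]
    exact (pow_eq_one_iff_of_nonneg zero_le hℓ.ne').1 h1
  have hdiff : ∀ η η' : F, η ^ ℓ = 1 → η' ^ ℓ = 1 → η ≠ η' → v (η - η') = 1 := by
    intro η η' h1 h2 h3
    have h4 := hne η' h2
    have h5 : v (η / η' - 1) = 1 := by
      apply hη1
      · rw [div_pow, h1, h2, div_one]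
      · intro h5
        apply h3
        rwa [div_eq_one_iff_eq h4] at h5
    have e : η - η' = (η / η' - 1) * η' := by
      field_simp
    rw [e, map_mul, h5, hv1 _ h2, one_mul]
  have hmu : ∀ η : F, η ^ ℓ = 1 → η ≠ 1 → v (2 - η - η⁻¹) = 1 := by
    intro η h1 h2
    have h3 := hne η h1
    have e : 2 - η - η⁻¹ = -((η - 1) ^ 2 / η) := by
      field_simp
      ring
    rw [e, Valuation.map_neg, map_div₀, map_pow, hη1 η h1 h2, hv1 η h1]
    simp
  have hmu2 : ∀ η η' : F, η ^ ℓ = 1 → η' ^ ℓ = 1 → η ≠ η' → η' ≠ η⁻¹ →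
      v ((2 - η - η⁻¹) - (2 - η' - η'⁻¹)) = 1 := by
    intro η η' h1 h2 h3 h4
    have h5 := hne η h1
    have h6 := hne η' h2
    have e : (2 - η - η⁻¹) - (2 - η' - η'⁻¹) = (η' - η) * (η' - η⁻¹) / η' := by
      field_simp
      ring
    have h7 : η⁻¹ ^ ℓ = 1 := by rw [inv_pow, h1, inv_one]
    rw [e, map_div₀, map_mul, hdiff _ _ h2 h1 h3.symm, hdiff _ _ h2 h7 h4, hv1 _ h2]
    simp
  have hmem1 : (1 : F) ∈ nthRootsFinset ℓ (1 : F) := by
    rw [mem_nthRootsFinset hℓ, one_pow]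
  have hD1 : S ^ 2 - (2 - (1 : F) - (1 : F)⁻¹) * N = S ^ 2 := by
    rw [inv_one]
    ring
  have hDne : ∀ η ∈ nthRootsFinset ℓ (1 : F), S ^ 2 - (2 - η - η⁻¹) * N ≠ 0 := by
    intro η hη h0
    have h1 := Finset.prod_eq_zero (f := fun η : F => S ^ 2 - (2 - η - η⁻¹) * N) hη h0
    rw [hprod] at h1
    exact one_ne_zero h1
  have hS2 : v S ^ 2 ≠ 0 := by
    rw [← map_pow, Valuation.ne_zero_iff]
    have := hDne 1 hmem1
    rwa [hD1] at this
  by_cases hη1' : η = 1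
  · refine ⟨1, ?_⟩
    rw [hη1', hD1, map_pow, one_pow, mul_one]
  have hvp := congrArg v hprod
  rw [map_prod, map_one] at hvp
  have hmuN : ∀ η : F, η ^ ℓ = 1 → η ≠ 1 → v ((2 - η - η⁻¹) * N) = v N := by
    intro η h1 h2
    rw [map_mul, hmu η h1 h2, one_mul]
  rcases lt_trichotomy (v N) (v S ^ 2) with hlt | heq | hgt
  · refine ⟨1, ?_⟩
    rw [one_pow, mul_one, Valuation.map_sub_eq_of_lt_left, map_pow]
    rw [hmuN η hη hη1', map_pow]
    exact hlt
  · -- equal values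
    have hle : ∀ η : F, η ^ ℓ = 1 → v (S ^ 2 - (2 - η - η⁻¹) * N) ≤ v S ^ 2 := by
      intro η h1
      by_cases h2 : η = 1
      · rw [h2, hD1, map_pow]
      · refine Valuation.map_sub_le _ (by rw [map_pow]) ?_
        rw [hmuN η h1 h2, heq]
    rcases (hle η hη).eq_or_lt with h1 | h1
    · exact ⟨1, by rw [h1, one_pow, mul_one]⟩
    have hinv : η⁻¹ ^ ℓ = 1 := by rw [inv_pow, hη, inv_one]
    have hηi : η ≠ η⁻¹ := by
      intro h2
      apply hη1'
      have h3 : η ^ 2 = 1 := by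
        rw [pow_two]
        nth_rewrite 2 [h2]
        exact mul_inv_cancel₀ (hne η hη)
      obtain ⟨r, hr⟩ := hodd
      rw [hr, pow_add, pow_mul, h3, one_pow, one_mul, pow_one] at hη
      exact hη
    have hrest : ∀ η' : F, η' ^ ℓ = 1 → η' ≠ η → η' ≠ η⁻¹ →
        v (S ^ 2 - (2 - η' - η'⁻¹) * N) = v S ^ 2 := by
      intro η' h2 h3 h4
      have e : S ^ 2 - (2 - η' - η'⁻¹) * N = ((2 - η - η⁻¹) - (2 - η' - η'⁻¹)) * N +
          (S ^ 2 - (2 - η - η⁻¹) * N) := by ring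
      have h5 : v (((2 - η - η⁻¹) - (2 - η' - η'⁻¹)) * N) = v S ^ 2 := by
        rw [map_mul, hmu2 η η' hη h2 h3.symm h4, one_mul, heq]
      rw [e, Valuation.map_add_eq_of_lt_left _ (by rw [h5]; exact h1), h5]
    have hmemη : η ∈ nthRootsFinset ℓ (1 : F) := by
      rw [mem_nthRootsFinset hℓ, hη]
    have hmemi : η⁻¹ ∈ (nthRootsFinset ℓ (1 : F)).erase η := by
      rw [Finset.mem_erase, mem_nthRootsFinset hℓ, hinv]
      exact ⟨hηi.symm, rfl⟩
    rw [← Finset.mul_prod_erase _ _ hmemη, ← Finset.mul_prod_erase _ _ hmemi,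
      Finset.prod_congr rfl (g := fun _ => v S ^ 2) (by
        intro η' hη'
        rw [Finset.mem_erase, Finset.mem_erase, mem_nthRootsFinset hℓ] at hη'
        exact hrest η' hη'.2.2 hη'.2.1 hη'.1), Finset.prod_const,
      Finset.card_erase_of_mem hmemi, Finset.card_erase_of_mem hmemη,
      hζ.card_nthRootsFinset] at hvp
    have e : S ^ 2 - (2 - η⁻¹ - η⁻¹⁻¹) * N = S ^ 2 - (2 - η - η⁻¹) * N := by
      rw [inv_inv]
      ring
    rw [e] at hvp
    set d := v (S ^ 2 - (2 - η - η⁻¹) * N) with hd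
    set a := v S ^ 2 with ha
    obtain ⟨r, hr⟩ := hodd
    have hr1 : 1 ≤ r := by
      by_contra hcon
      have : r = 0 := by omega
      subst this
      rw [hr] at hη
      exact hη1' (by simpa using hη)
    have hl2 : ℓ - 1 - 1 = 2 * r - 1 := by omega
    rw [hl2] at hvp
    exact ⟨(d / a) * a ^ r, by rw [hr]; exact (aux_pow hS2 hr1 hvp).symm⟩
  · refine ⟨v N, ?_⟩
    have h1 : ∀ η : F, η ^ ℓ = 1 → η ≠ 1 → v (S ^ 2 - (2 - η - η⁻¹) * N) = v N := by
      intro η h1 h2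
      rw [Valuation.map_sub_eq_of_lt_right, hmuN η h1 h2]
      rw [hmuN η h1 h2, map_pow]
      exact hgt
    rw [h1 η hη hη1']
    rw [← Finset.mul_prod_erase _ _ hmem1, Finset.prod_congr rfl (g := fun _ => v N) (by
        intro η' hη'
        rw [Finset.mem_erase, mem_nthRootsFinset hℓ] at hη'
        exact h1 η' hη'.2 hη'.1), Finset.prod_const,
      Finset.card_erase_of_mem hmem1, hζ.card_nthRootsFinset, hD1, map_pow] at hvp
    obtain ⟨r, hr⟩ : ∃ r, ℓ = r + 1 := ⟨ℓ - 1, by omega⟩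
    rw [hr, Nat.add_sub_cancel] at hvp
    rw [hr, pow_succ (v N) r, ← mul_assoc, hvp, one_mul]

end Pool.Agent.K3h44.FQ
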